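import Pool.Agent.TH762.RX.CP

/-!
# Removal of short advice for sums over a tree
-/

set_option autoImplicit false

namespace Pool.Agent.TH762.RX

open Pool.Agent.NPC Pool.Agent.NPC.Cnt

/-- the path on which two functions differ -/
def pth (B C : List Bool → ℕ) (n : ℕ) : List Bool :=
  (fun u => if B (u ++ [false]) = C (u ++ [false]) then u ++ [true] else u ++ [false])^[n] []

/-- a function is refuted on a path -/
def bad (B leaf : List Bool → ℕ) (p n : ℕ) (u : List Bool) : Bool :=
  (List.range n).any (fun i => !decide (B (u.take i) =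
    (B (u.take i ++ [false]) + B (u.take i ++ [true])) % p)) || !decide (B u = leaf u % p)

theorem pth_length (B C : List Bool → ℕ) : ∀ n : ℕ, (pth B C n).length = n
  | 0 => rfl
  | n + 1 => by
    unfold pth
    rw [Function.iterate_succ_apply']
    have h := pth_length B C n
    unfold pth at h
    split_ifs <;> simp [h]

theorem pth_take (B C : List Bool → ℕ) (k : ℕ) : ∀ n : ℕ, k ≤ n →
    (pth B C n).take k = pth B C k := by
  intro n hn
  induction n, hn using Nat.le_induction with
  | base => rw [List.take_of_length_le (by rw [pth_length])]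
  | succ n hn ih =>
    have h1 : pth B C (n + 1) = if B (pth B C n ++ [false]) = C (pth B C n ++ [false]) then
      pth B C n ++ [true] else pth B C n ++ [false] := by
      unfold pth
      rw [Function.iterate_succ_apply']
    rw [h1, ← ih]
    split_ifs <;> rw [List.take_append_of_le_length (by rw [pth_length]; exact hn)]

theorem pth_succ (B C : List Bool → ℕ) (n : ℕ) :
    pth B C (n + 1) = if B (pth B C n ++ [false]) = C (pth B C n ++ [false]) then
      pth B C n ++ [true] else pth B C n ++ [false] := by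
  unfold pth
  rw [Function.iterate_succ_apply']

theorem bad_true {B leaf g : List Bool → ℕ} {p n : ℕ} {u : List Bool} (hu : u.length = n)
    (h1 : ∀ u, u.length ≤ n → B u = g u)
    (h2 : ∀ u : List Bool, u.length < n → g u = (g (u ++ [false]) + g (u ++ [true])) % p)
    (h3 : ∀ u, u.length = n → leaf u % p = g u) : bad B leaf p n u = false := by
  unfold bad
  rw [Bool.or_eq_false_iff, List.any_eq_false]
  refine ⟨fun i hi => ?_, ?_⟩
  · rw [List.mem_range] at hi
    have h4 : (u.take i).length = i := by rw [List.length_take]; omega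
    rw [h1 _ (by omega), h1 (u.take i ++ [false]) (by simp; omega),
      h1 (u.take i ++ [true]) (by simp; omega), ← h2 _ (by omega)]
    simp
  · rw [h1 u hu.le, h3 u hu]
    simp

/-- If two functions differ at the root and both are consistent on the path on which they differ,
then one of them is wrong at the leaf. -/
theorem eq_of_not_bad {B leaf g : List Bool → ℕ} {p n : ℕ}
    (h2 : ∀ u : List Bool, u.length < n → g u = (g (u ++ [false]) + g (u ++ [true])) % p)
    (h3 : ∀ u, u.length = n → leaf u % p = g u) {C : List Bool → ℕ}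
    (hC : ∀ u, u.length ≤ n → C u = g u) (hB : bad B leaf p n (pth B C n) = false) :
    B [] = g [] := by
  unfold bad at hB
  rw [Bool.or_eq_false_iff, List.any_eq_false] at hB
  obtain ⟨h4, h5⟩ := hB
  by_contra hne
  have key : ∀ k ≤ n, B (pth B C k) ≠ g (pth B C k) := by
    intro k
    induction k with
    | zero => exact fun _ => hne
    | succ k ih =>
      intro hk
      have h6 := ih (by omega)
      have h7 := h4 k (List.mem_range.2 (by omega))
      rw [pth_take B C k n (by omega)] at h7
      simp only [Bool.not_eq_true', decide_eq_false_iff_not, not_not] at h7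
      have h8 := h2 (pth B C k) (by rw [pth_length]; omega)
      rw [pth_succ]
      have h9 : (pth B C k).length = k := pth_length _ _ _
      split_ifs with h
      · intro h10
        apply h6
        rw [h7, h8, h10, h, hC _ (by simp; omega)]
      · intro h10
        exact h (by rw [h10, hC _ (by simp; omega)])
  have h6 := key n le_rfl
  simp only [Bool.not_eq_false', decide_eq_true_eq] at h5
  exact h6 (by rw [h5, h3 _ (pth_length _ _ _)])

variable {κ γ : Type} [TEnc κ] [TEnc γ]

/-- **Removal of advice.** -/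
theorem remove_advice {B : κ → γ → List Bool → ℕ}
    (hB : NPC.Poly (fun q : κ × (γ × List Bool) => B q.1 q.2.1 q.2.2))
    {Γ : κ → List γ} (hΓ : NPC.Poly Γ) {n p : κ → ℕ} (hn : UPoly n) (hp : NPC.Poly p)
    {leaf : κ → List Bool → ℕ} (hleaf : NPC.Poly (fun q : κ × List Bool => leaf q.1 q.2)) :
    ∃ D : κ → ℕ, NPC.Poly D ∧ ∀ (x : κ) (g : List Bool → ℕ),
      (∀ u : List Bool, u.length < n x → g u = (g (u ++ [false]) + g (u ++ [true])) % p x) →
      (∀ u, u.length = n x → leaf x u % p x = g u) →
      (∃ c ∈ Γ x, ∀ u, u.length ≤ n x → B x c u = g u) → D x = g [] := by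
  set surv : κ → γ → Bool := fun x c => (Γ x).all (fun c' =>
    !bad (B x c) (leaf x) (p x) (n x) (pth (B x c) (B x c') (n x))) with hsurv
  refine ⟨fun x => (((Γ x).filter (surv x)).map (fun c => B x c [])).head?.getD 0, ?_, ?_⟩
  · refine NPC.Poly.head?_getD (NPC.Poly.map (l := fun x => (Γ x).filter (surv x))
      (F := fun x c => B x c []) ?_ (hB.comp (NPC.Poly.pair (NPC.Poly.fst NPC.Poly.id)
      (NPC.Poly.pair (NPC.Poly.snd NPC.Poly.id) (NPC.Poly.const []))))) 0
    refine NPC.Poly.filter (p := surv) hΓ ?_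
    simp only [hsurv]
    refine NPC.Poly.all (l := fun q : κ × γ => Γ q.1)
      (p := fun q c' => !bad (B q.1 q.2) (leaf q.1) (p q.1) (n q.1)
        (pth (B q.1 q.2) (B q.1 c') (n q.1))) (hΓ.comp (NPC.Poly.fst NPC.Poly.id)) ?_
    have ex : NPC.Poly (fun z : (κ × γ) × γ => z.1.1) := NPC.Poly.fst (NPC.Poly.fst NPC.Poly.id)
    have ec : NPC.Poly (fun z : (κ × γ) × γ => z.1.2) := NPC.Poly.snd (NPC.Poly.fst NPC.Poly.id)
    have ec' : NPC.Poly (fun z : (κ × γ) × γ => z.2) := NPC.Poly.snd NPC.Poly.id
    have hpth : NPC.Poly (fun z : (κ × γ) × γ => pth (B z.1.1 z.1.2) (B z.1.1 z.2) (n z.1.1)) := by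
      obtain ⟨rn, hrn⟩ := upoly_le_eval (hn.comp ex)
      have h1 := NPC.Poly.iterLen (l := fun z : (κ × γ) × γ => List.replicate (n z.1.1) ())
        (s := fun _ => ([] : List Bool))
        (F := fun z u => if B z.1.1 z.1.2 (u ++ [false]) = B z.1.1 z.2 (u ++ [false]) then
          u ++ [true] else u ++ [false]) (hn.comp ex) (NPC.Poly.const _) ?_
        (Polynomial.C 4 * rn + 1) ?_
      · refine h1.congr fun z => ?_
        rw [List.length_replicate]
        rfl
      · have f1 : NPC.Poly (fun y : ((κ × γ) × γ) × List Bool => y.1) := NPC.Poly.fst NPC.Poly.id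
        have f2 : NPC.Poly (fun y : ((κ × γ) × γ) × List Bool => y.2) := NPC.Poly.snd NPC.Poly.id
        have f3 : ∀ b : Bool, NPC.Poly (fun y : ((κ × γ) × γ) × List Bool => y.2 ++ [b]) :=
          fun b => NPC.Poly.append f2 (NPC.Poly.const [b])
        exact NPC.Poly.ite (NPC.Poly.decide_eq
          (hB.comp (NPC.Poly.pair (ex.comp f1) (NPC.Poly.pair (ec.comp f1) (f3 false))))
          (hB.comp (NPC.Poly.pair (ex.comp f1) (NPC.Poly.pair (ec'.comp f1) (f3 false)))))
          (f3 true) (f3 false)
      · intro z k hk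
        rw [List.length_replicate] at hk
        have h2 := pth_length (B z.1.1 z.1.2) (B z.1.1 z.2) k
        have h3 := sz_listBool_le (pth (B z.1.1 z.1.2) (B z.1.1 z.2) k)
        have h4 := hrn z
        have h5 : sz (pth (B z.1.1 z.1.2) (B z.1.1 z.2) k) ≤ 4 * rn.eval (sz z) + 1 := by omega
        simp only [Polynomial.eval_add, Polynomial.eval_mul, Polynomial.eval_one,
          Polynomial.eval_C]
        exact h5
    refine NPC.Poly.not ?_
    unfold bad
    have hB' : ∀ {g : ((κ × γ) × γ) × ℕ → List Bool}, NPC.Poly g →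
        NPC.Poly (fun y : ((κ × γ) × γ) × ℕ => B y.1.1.1 y.1.1.2 (g y)) := fun hg =>
      hB.comp (NPC.Poly.pair (ex.comp (NPC.Poly.fst NPC.Poly.id)) (NPC.Poly.pair
        (ec.comp (NPC.Poly.fst NPC.Poly.id)) hg))
    refine NPC.Poly.or (NPC.Poly.any (l := fun z : (κ × γ) × γ => List.range (n z.1.1))
      (p := fun z i => !decide (B z.1.1 z.1.2 ((pth (B z.1.1 z.1.2) (B z.1.1 z.2)
        (n z.1.1)).take i) = (B z.1.1 z.1.2 ((pth (B z.1.1 z.1.2) (B z.1.1 z.2)
        (n z.1.1)).take i ++ [false]) + B z.1.1 z.1.2 ((pth (B z.1.1 z.1.2) (B z.1.1 z.2)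
        (n z.1.1)).take i ++ [true])) % p z.1.1)) (hn.comp ex).range ?_) ?_
    · have ht : NPC.Poly (fun y : ((κ × γ) × γ) × ℕ =>
          (pth (B y.1.1.1 y.1.1.2) (B y.1.1.1 y.1.2) (n y.1.1.1)).take y.2) :=
        poly_tk (hpth.comp (NPC.Poly.fst NPC.Poly.id)) (NPC.Poly.snd NPC.Poly.id)
      exact NPC.Poly.not (NPC.Poly.decide_eq (hB' ht) (NPC.Poly.mod (NPC.Poly.add
        (hB' (NPC.Poly.append ht (NPC.Poly.const _))) (hB' (NPC.Poly.append ht
        (NPC.Poly.const _)))) ((hp.comp ex).comp (NPC.Poly.fst NPC.Poly.id))))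
    · exact NPC.Poly.not (NPC.Poly.decide_eq (hB.comp (NPC.Poly.pair ex (NPC.Poly.pair ec hpth)))
        (NPC.Poly.mod (hleaf.comp (NPC.Poly.pair ex hpth)) (hp.comp ex)))
  · intro x g h2 h3 ⟨c0, hc0, h1⟩
    have hs0 : surv x c0 = true := by
      simp only [hsurv]
      rw [List.all_eq_true]
      intro c' _
      rw [bad_true (pth_length _ _ _) h1 h2 h3]
      rfl
    have hmem : c0 ∈ (Γ x).filter (surv x) := List.mem_filter.2 ⟨hc0, hs0⟩
    have hall : ∀ c ∈ (Γ x).filter (surv x), B x c [] = g [] := by
      intro c hc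
      have h4 := (List.mem_filter.1 hc).2
      simp only [hsurv] at h4
      rw [List.all_eq_true] at h4
      have h5 := h4 c0 hc0
      rw [Bool.not_eq_true'] at h5
      exact eq_of_not_bad h2 h3 h1 h5
    beta_reduce
    generalize (Γ x).filter (surv x) = l at hmem hall
    cases l with
    | nil => simp at hmem
    | cons c l => exact hall c List.mem_cons_self

end Pool.Agent.TH762.RX
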