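import Mathlib

/-!
# Candidate vectors: pruning, separating positions, and the walk down and up the tree
-/

set_option autoImplicit false

namespace Pool.Agent.TH762.RX

/-! ### Pruning -/

/-- Add a candidate and erase the excluded one if there are `F` candidates. -/
def addc (Z : List (List ℕ) → ℕ) (F : ℕ) (K : List (List ℕ)) (c : List ℕ) : List (List ℕ) :=
  if (K ++ [c]).length < F then K ++ [c] else ((K ++ [c]).eraseIdx (Z (K ++ [c]))).take (F - 1)

/-- Prune a list of candidates. -/
def prune (Z : List (List ℕ) → ℕ) (F : ℕ) (cs : List (List ℕ)) : List (List ℕ) :=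
  cs.foldl (addc Z F) []

theorem addc_length (Z : List (List ℕ) → ℕ) (F : ℕ) (K : List (List ℕ)) (c : List ℕ) :
    (addc Z F K c).length ≤ F - 1 := by
  unfold addc
  split_ifs with h
  · omega
  · rw [List.length_take]
    exact min_le_left _ _

theorem addc_mem {Z : List (List ℕ) → ℕ} {F : ℕ} {K : List (List ℕ)} {c a : List ℕ}
    (h : a ∈ addc Z F K c) : a ∈ K ∨ a = c := by
  unfold addc at h
  have : a ∈ K ++ [c] := by
    split_ifs at h with h1
    · exact h
    · exact (List.eraseIdx_subset) ((List.take_subset _ _) h)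
  simpa using this

theorem foldl_addc_mem {Z : List (List ℕ) → ℕ} {F : ℕ} : ∀ (cs K : List (List ℕ)) {a : List ℕ},
    a ∈ cs.foldl (addc Z F) K → a ∈ K ∨ a ∈ cs
  | [], K, a, h => Or.inl h
  | c :: cs, K, a, h => by
    rw [List.foldl_cons] at h
    rcases foldl_addc_mem cs _ h with h1 | h1
    · rcases addc_mem h1 with h2 | h2
      · exact Or.inl h2
      · exact Or.inr (by rw [h2]; exact List.mem_cons_self)
    · exact Or.inr (List.mem_cons_of_mem _ h1)

theorem foldl_addc_length {Z : List (List ℕ) → ℕ} {F : ℕ} : ∀ (cs K : List (List ℕ)),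
    K.length ≤ F - 1 → (cs.foldl (addc Z F) K).length ≤ F - 1
  | [], K, h => h
  | c :: cs, K, _ => by
    rw [List.foldl_cons]
    exact foldl_addc_length cs _ (addc_length Z F K c)

theorem prune_length (Z : List (List ℕ) → ℕ) (F : ℕ) (cs : List (List ℕ)) :
    (prune Z F cs).length ≤ F - 1 := foldl_addc_length cs [] (Nat.zero_le _)

theorem prune_mem {Z : List (List ℕ) → ℕ} {F : ℕ} {cs : List (List ℕ)} {a : List ℕ}
    (h : a ∈ prune Z F cs) : a ∈ cs := by
  rcases foldl_addc_mem cs [] h with h1 | h1
  · simp at h1
  · exact h1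

theorem prune_spec_aux {Z : List (List ℕ) → ℕ} {F : ℕ} (hF : 1 ≤ F) {v : List ℕ}
    (Q : List ℕ → Prop)
    (hZ : ∀ K : List (List ℕ), K.Nodup → K.length = F → (∀ c ∈ K, Q c) → v ∈ K →
      Z K < F ∧ K.getD (Z K) [] ≠ v) :
    ∀ (cs K : List (List ℕ)), K.length ≤ F - 1 → (K ++ cs).Nodup → (∀ c ∈ K ++ cs, Q c) →
      v ∈ K ++ cs → v ∈ cs.foldl (addc Z F) K ∧ (cs.foldl (addc Z F) K).Nodup
  | [], K, _, hnd, _, hv => by
    rw [List.append_nil] at hnd hv
    exact ⟨hv, hnd⟩
  | c :: cs, K, hK, hnd, hQ, hv => by
    rw [List.foldl_cons]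
    have hnd' : (K ++ [c] ++ cs).Nodup := by simpa using hnd
    have hnd1 : (K ++ [c]).Nodup := (List.nodup_append.1 hnd').1
    have hQ1 : ∀ a ∈ K ++ [c], Q a := fun a ha => hQ a (by
      rw [List.mem_append] at ha ⊢
      rcases ha with ha | ha
      · exact Or.inl ha
      · rw [List.mem_singleton] at ha
        exact Or.inr (by rw [ha]; exact List.mem_cons_self))
    have hsub : (addc Z F K c).Sublist (K ++ [c]) := by
      unfold addc
      split_ifs with h
      · exact List.Sublist.refl _
      · exact (List.take_sublist _ _).trans (List.eraseIdx_sublist _ _)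
    refine prune_spec_aux hF Q hZ cs (addc Z F K c) (addc_length Z F K c)
      ((hsub.append_right cs).nodup hnd') ?_ ?_
    · intro a ha
      rw [List.mem_append] at ha
      rcases ha with ha | ha
      · exact hQ1 a (hsub.subset ha)
      · exact hQ a (List.mem_append.2 (Or.inr (List.mem_cons_of_mem _ ha)))
    · rw [List.mem_append]
      have hv' : v ∈ K ++ [c] ∨ v ∈ cs := by
        rw [List.mem_append, List.mem_cons] at hv
        rw [List.mem_append, List.mem_singleton]
        tauto
      rcases hv' with hv' | hv'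
      · left
        unfold addc
        split_ifs with h
        · exact hv'
        · have hlen : (K ++ [c]).length = F := by
            rw [List.length_append, List.length_singleton] at h ⊢
            omega
          obtain ⟨h1, h2⟩ := hZ (K ++ [c]) hnd1 hlen hQ1 hv'
          rw [List.take_of_length_le (by
            rw [List.length_eraseIdx_of_lt (by omega)]
            omega)]
          rw [List.mem_eraseIdx_iff_getElem]
          obtain ⟨i, hi, hiv⟩ := List.getElem_of_mem hv'
          refine ⟨i, hi, ?_, hiv⟩
          intro h3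
          apply h2
          rw [← h3, List.getD_eq_getElem _ _ hi, hiv]
      · exact Or.inr hv'

theorem prune_spec {Z : List (List ℕ) → ℕ} {F : ℕ} (hF : 1 ≤ F) {v : List ℕ}
    (Q : List ℕ → Prop)
    (hZ : ∀ K : List (List ℕ), K.Nodup → K.length = F → (∀ c ∈ K, Q c) → v ∈ K →
      Z K < F ∧ K.getD (Z K) [] ≠ v) {cs : List (List ℕ)} (hnd : cs.Nodup) (hQ : ∀ c ∈ cs, Q c)
    (hv : v ∈ cs) : v ∈ prune Z F cs ∧ (prune Z F cs).Nodup :=
  prune_spec_aux hF Q hZ cs [] (Nat.zero_le _) (by simpa using hnd) (by simpa using hQ)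
    (by simpa using hv)

/-! ### Candidates for the values on a list of nodes -/

/-- extend the candidates by one entry -/
def ext (p : ℕ) (K : List (List ℕ)) : List (List ℕ) :=
  K.flatMap (fun c => (List.range p).map (fun a => a :: c))

/-- add one node -/
def cstep (Z : List (List Bool) → List (List ℕ) → ℕ) (F p : ℕ) (u : List Bool)
    (s : List (List Bool) × List (List ℕ)) : List (List Bool) × List (List ℕ) :=
  (u :: s.1, prune (Z (u :: s.1)) F (ext p s.2))

/-- the candidates for the vector of the values on the nodes `us` -/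
def cands (Z : List (List Bool) → List (List ℕ) → ℕ) (F p : ℕ) (us : List (List Bool)) :
    List (List ℕ) := (us.foldr (cstep Z F p) ([], [[]])).2

theorem foldr_cstep_fst (Z : List (List Bool) → List (List ℕ) → ℕ) (F p : ℕ) :
    ∀ us : List (List Bool), (us.foldr (cstep Z F p) ([], [[]])).1 = us
  | [] => rfl
  | u :: us => by
    rw [List.foldr_cons]
    show u :: (us.foldr (cstep Z F p) ([], [[]])).1 = _
    rw [foldr_cstep_fst Z F p us]

theorem cands_cons (Z : List (List Bool) → List (List ℕ) → ℕ) (F p : ℕ) (u : List Bool)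
    (us : List (List Bool)) :
    cands Z F p (u :: us) = prune (Z (u :: us)) F (ext p (cands Z F p us)) := by
  unfold cands
  rw [List.foldr_cons]
  show prune (Z (u :: (us.foldr (cstep Z F p) ([], [[]])).1)) F _ = _
  rw [foldr_cstep_fst]

theorem mem_ext {p : ℕ} {K : List (List ℕ)} {w : List ℕ} :
    w ∈ ext p K ↔ ∃ c ∈ K, ∃ a < p, w = a :: c := by
  unfold ext
  rw [List.mem_flatMap]
  constructor
  · rintro ⟨c, hc, hw⟩
    obtain ⟨a, ha, rfl⟩ := List.mem_map.1 hw
    exact ⟨c, hc, a, List.mem_range.1 ha, rfl⟩
  · rintro ⟨c, hc, a, ha, rfl⟩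
    exact ⟨c, hc, List.mem_map.2 ⟨a, List.mem_range.2 ha, rfl⟩⟩

theorem ext_nodup {p : ℕ} {K : List (List ℕ)} (hK : K.Nodup) : (ext p K).Nodup := by
  unfold ext
  rw [List.nodup_flatMap]
  refine ⟨fun c _ => (List.nodup_range).map fun a b h => by simpa using h, ?_⟩
  refine hK.imp fun {c d} hcd => ?_
  rw [Function.onFun, List.disjoint_left]
  intro w hw hw'
  obtain ⟨a, _, rfl⟩ := List.mem_map.1 hw
  obtain ⟨a', _, h⟩ := List.mem_map.1 hw'
  exact hcd (by simpa using (List.cons.inj h).2.symm)

/-- The exclusion works for the nodes `us`. -/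
def Works (Z : List (List Bool) → List (List ℕ) → ℕ) (F p : ℕ) (g : List Bool → ℕ)
    (us : List (List Bool)) : Prop :=
  ∀ K : List (List ℕ), K.Nodup → K.length = F → (∀ c ∈ K, c.length = us.length ∧ ∀ a ∈ c, a < p) →
    us.map g ∈ K → Z us K < F ∧ K.getD (Z us K) [] ≠ us.map g

theorem cands_spec {Z : List (List Bool) → List (List ℕ) → ℕ} {F p : ℕ} (hF : 2 ≤ F)
    {g : List Bool → ℕ} (hg : ∀ u, g u < p) : ∀ us : List (List Bool),
    (∀ us', us' <:+ us → Works Z F p g us') →
      us.map g ∈ cands Z F p us ∧ (cands Z F p us).Nodup ∧ (cands Z F p us).length ≤ F - 1 ∧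
        ∀ c ∈ cands Z F p us, c.length = us.length ∧ ∀ a ∈ c, a < p
  | [], _ => by
    refine ⟨?_, ?_, ?_, ?_⟩
    · simp [cands]
    · simp [cands]
    · simp [cands]; omega
    · simp [cands]
  | u :: us, h => by
    obtain ⟨h1, h2, h3, h4⟩ := cands_spec hF hg us fun us' h' =>
      h us' (h'.trans (List.suffix_cons u us))
    have hQ : ∀ c ∈ ext p (cands Z F p us), c.length = (u :: us).length ∧ ∀ a ∈ c, a < p := by
      intro c hc
      obtain ⟨d, hd, a, ha, rfl⟩ := mem_ext.1 hc
      obtain ⟨h5, h6⟩ := h4 d hd
      refine ⟨by simp [h5], fun b hb => ?_⟩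
      rcases List.mem_cons.1 hb with rfl | hb
      · exact ha
      · exact h6 b hb
    have hv : (u :: us).map g ∈ ext p (cands Z F p us) :=
      mem_ext.2 ⟨us.map g, h1, g u, hg u, rfl⟩
    obtain ⟨h5, h6⟩ := prune_spec (F := F) (by omega)
      (fun c => c.length = (u :: us).length ∧ ∀ a ∈ c, a < p)
      (fun K hK1 hK2 hK3 hK4 => h (u :: us) (List.suffix_refl _) K hK1 hK2 hK3 hK4)
      (ext_nodup h2) hQ hv
    rw [cands_cons]
    exact ⟨h5, h6, prune_length _ _ _, fun c hc => hQ c (prune_mem hc)⟩

/-! ### Separating positions -/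

/-- the first difference -/
def fd (a b : List ℕ) : ℕ :=
  ((List.range a.length).filter (fun i => !decide (a.getD i 0 = b.getD i 0))).head?.getD 0

theorem fd_lt {a b : List ℕ} (h : 0 < a.length) : fd a b < a.length := by
  unfold fd
  generalize hl : (List.range a.length).filter (fun i => !decide (a.getD i 0 = b.getD i 0)) = l
  cases l with
  | nil => simpa using h
  | cons i l =>
    have : i ∈ (List.range a.length).filter (fun i => !decide (a.getD i 0 = b.getD i 0)) := by
      rw [hl]; exact List.mem_cons_self
    simpa using List.mem_range.1 (List.mem_filter.1 this).1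

theorem fd_spec {a b : List ℕ} (hab : a.length = b.length) (h : a ≠ b) :
    a.getD (fd a b) 0 ≠ b.getD (fd a b) 0 := by
  unfold fd
  generalize hl : (List.range a.length).filter (fun i => !decide (a.getD i 0 = b.getD i 0)) = l
  cases l with
  | nil =>
    exfalso
    apply h
    refine List.ext_getElem hab fun i h1 h2 => ?_
    rw [List.filter_eq_nil_iff] at hl
    have h3 := hl i (List.mem_range.2 h1)
    rw [List.getD_eq_getElem _ _ h1, List.getD_eq_getElem _ _ h2] at h3
    simpa using h3
  | cons i l =>
    have : i ∈ (List.range a.length).filter (fun i => !decide (a.getD i 0 = b.getD i 0)) := by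
      rw [hl]; exact List.mem_cons_self
    simpa using (List.mem_filter.1 this).2

/-- positions which separate the members of the list -/
def pos (L : List (List ℕ)) : List ℕ := L.flatMap (fun a => L.map (fun b => fd a b))

/-- the member of the list with the given entries at the separating positions -/
def pick (L : List (List ℕ)) (vals : List ℕ) : List ℕ :=
  (L.filter (fun w => decide ((pos L).map (fun i => w.getD i 0) = vals))).head?.getD []

theorem pick_spec {L : List (List ℕ)} {v : List ℕ} (hv : v ∈ L)
    (hL : ∀ c ∈ L, c.length = v.length) : pick L ((pos L).map (fun i => v.getD i 0)) = v := by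
  unfold pick
  have h1 : v ∈ L.filter (fun w => decide ((pos L).map (fun i => w.getD i 0) =
      (pos L).map (fun i => v.getD i 0))) := List.mem_filter.2 ⟨hv, by simp⟩
  generalize hl : L.filter (fun w => decide ((pos L).map (fun i => w.getD i 0) =
      (pos L).map (fun i => v.getD i 0))) = l at h1
  cases l with
  | nil => simp at h1
  | cons w l =>
    have h2 : w ∈ L.filter (fun w => decide ((pos L).map (fun i => w.getD i 0) =
      (pos L).map (fun i => v.getD i 0))) := by rw [hl]; exact List.mem_cons_self
    obtain ⟨h3, h4⟩ := List.mem_filter.1 h2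
    rw [decide_eq_true_eq] at h4
    show w = v
    by_contra hne
    have h5 := fd_spec (hL w h3) hne
    apply h5
    have h6 : fd w v ∈ pos L := List.mem_flatMap.2 ⟨w, h3, List.mem_map.2 ⟨v, hv, rfl⟩⟩
    exact List.map_inj_left.1 h4 _ h6

/-! ### The walk -/

/-- the children of the nodes -/
def chl (us : List (List Bool)) : List (List Bool) :=
  us.map (fun u => u ++ [false]) ++ us.map (fun u => u ++ [true])

/-- the separating nodes of the next level -/
def nextN (Z : List (List Bool) → List (List ℕ) → ℕ) (F p : ℕ) (us : List (List Bool)) :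
    List (List Bool) :=
  (pos (cands Z F p (chl us))).map (fun i => (chl us).getD i [])

/-- the values on the nodes from the values on the separating nodes of the next level -/
def back (Z : List (List Bool) → List (List ℕ) → ℕ) (F p : ℕ) (vals : List ℕ)
    (us : List (List Bool)) : List ℕ :=
  List.zipWith (fun a b => (a + b) % p)
    ((pick (cands Z F p (chl us)) vals).take us.length)
    ((pick (cands Z F p (chl us)) vals).drop us.length)

/-- one step down -/
def down (Z : List (List Bool) → List (List ℕ) → ℕ) (F p : ℕ) (S : List (List (List Bool))) :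
    List (List (List Bool)) := nextN Z F p (S.head?.getD []) :: S

theorem chl_ne {us : List (List Bool)} (h : us ≠ []) : 0 < (chl us).length := by
  unfold chl
  rw [List.length_append, List.length_map]
  have := List.length_pos_iff.2 h
  omega

theorem nextN_spec {Z : List (List Bool) → List (List ℕ) → ℕ} {F p : ℕ} (hF : 2 ≤ F)
    {g : List Bool → ℕ} (hg : ∀ u, g u < p) {us : List (List Bool)} (hus : us ≠ [])
    (hW : ∀ us', us' <:+ chl us → Works Z F p g us') :
    nextN Z F p us ≠ [] ∧ (nextN Z F p us).length ≤ (F - 1) ^ 2 ∧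
      (∀ u ∈ nextN Z F p us, ∃ v ∈ us, ∃ b, u = v ++ [b]) ∧
      (nextN Z F p us).map g = (pos (cands Z F p (chl us))).map
        (fun i => ((chl us).map g).getD i 0) := by
  obtain ⟨h1, h2, h3, h4⟩ := cands_spec hF hg (chl us) hW
  have h5 : ∀ i ∈ pos (cands Z F p (chl us)), i < (chl us).length := by
    intro i hi
    obtain ⟨a, ha, hi⟩ := List.mem_flatMap.1 hi
    obtain ⟨b, hb, rfl⟩ := List.mem_map.1 hi
    rw [← (h4 a ha).1]
    exact fd_lt (by rw [(h4 a ha).1]; exact chl_ne hus)
  refine ⟨?_, ?_, ?_, ?_⟩
  · intro h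
    unfold nextN at h
    rw [List.map_eq_nil_iff] at h
    have h6 : fd ((chl us).map g) ((chl us).map g) ∈ pos (cands Z F p (chl us)) :=
      List.mem_flatMap.2 ⟨_, h1, List.mem_map.2 ⟨_, h1, rfl⟩⟩
    rw [h] at h6
    simp at h6
  · unfold nextN pos
    rw [List.length_map, List.length_flatMap]
    simp only [List.length_map, List.map_const', List.sum_replicate, smul_eq_mul]
    rw [pow_two]
    exact Nat.mul_le_mul h3 h3
  · intro u hu
    unfold nextN at hu
    obtain ⟨i, hi, rfl⟩ := List.mem_map.1 hu
    rw [List.getD_eq_getElem _ _ (h5 i hi)]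
    have h6 : (chl us)[i]'(h5 i hi) ∈ chl us := List.getElem_mem _
    unfold chl at h6
    rw [List.mem_append] at h6
    rcases h6 with h6 | h6
    · obtain ⟨v, hv, h7⟩ := List.mem_map.1 h6
      exact ⟨v, hv, false, h7.symm⟩
    · obtain ⟨v, hv, h7⟩ := List.mem_map.1 h6
      exact ⟨v, hv, true, h7.symm⟩
  · unfold nextN
    rw [List.map_map]
    refine List.map_congr_left fun i hi => ?_
    have h6 := h5 i hi
    rw [Function.comp_apply, List.getD_eq_getElem _ _ h6,
      List.getD_eq_getElem _ _ (by simpa using h6), List.getElem_map]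

theorem zipWith_add {p : ℕ} {g : List Bool → ℕ} : ∀ {us : List (List Bool)},
    (∀ u ∈ us, g u = (g (u ++ [false]) + g (u ++ [true])) % p) →
    List.zipWith (fun a b => (a + b) % p) (us.map (g ∘ fun u => u ++ [false]))
      (us.map (g ∘ fun u => u ++ [true])) = us.map g
  | [], _ => rfl
  | u :: us, hadd => by
    rw [List.map_cons, List.map_cons, List.zipWith_cons_cons, zipWith_add fun v hv =>
      hadd v (List.mem_cons_of_mem _ hv), List.map_cons, hadd u List.mem_cons_self]
    rfl

theorem back_spec {Z : List (List Bool) → List (List ℕ) → ℕ} {F p : ℕ} (hF : 2 ≤ F)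
    {g : List Bool → ℕ} (hg : ∀ u, g u < p) {us : List (List Bool)} (hus : us ≠ [])
    (hW : ∀ us', us' <:+ chl us → Works Z F p g us')
    (hadd : ∀ u ∈ us, g u = (g (u ++ [false]) + g (u ++ [true])) % p) :
    back Z F p ((nextN Z F p us).map g) us = us.map g := by
  obtain ⟨h1, h2, h3, h4⟩ := cands_spec hF hg (chl us) hW
  obtain ⟨_, _, _, h5⟩ := nextN_spec hF hg hus hW
  unfold back
  rw [h5, pick_spec h1 (fun c hc => by rw [(h4 c hc).1, List.length_map])]
  unfold chl
  rw [List.map_append, List.map_map, List.map_map, List.take_left' (by simp),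
    List.drop_left' (by simp)]
  exact zipWith_add hadd

/-- **The walk down and up gives the values on the nodes.** -/
theorem walk_spec {Z : List (List Bool) → List (List ℕ) → ℕ} {F p n : ℕ} (hF : 2 ≤ F)
    {g : List Bool → ℕ} (hg : ∀ u, g u < p)
    (hadd : ∀ u : List Bool, u.length < n → g u = (g (u ++ [false]) + g (u ++ [true])) % p)
    (hW : ∀ us : List (List Bool), us.length ≤ 2 * (F - 1) ^ 2 → (∀ u ∈ us, u.length ≤ n) →
      Works Z F p g us) :
    ∀ (k : ℕ) (us : List (List Bool)) (rest : List (List (List Bool))), us ≠ [] →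
      us.length ≤ (F - 1) ^ 2 → (∀ u ∈ us, u.length + k = n) →
      ∃ vs, ((down Z F p)^[k] (us :: rest)).head? = some vs ∧ (∀ v ∈ vs, v.length = n) ∧
        ((down Z F p)^[k] (us :: rest)).tail.foldl (back Z F p) (vs.map g) =
          rest.foldl (back Z F p) (us.map g)
  | 0, us, rest, _, _, hlen => ⟨us, rfl, fun v hv => by have := hlen v hv; omega, rfl⟩
  | k + 1, us, rest, hus, hc, hlen => by
    have hW' : ∀ us', us' <:+ chl us → Works Z F p g us' := by
      intro us' h
      refine hW us' ?_ ?_
      · have h1 := h.length_le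
        unfold chl at h1
        rw [List.length_append, List.length_map, List.length_map] at h1
        omega
      · intro u hu
        have h1 := h.subset hu
        unfold chl at h1
        rw [List.mem_append] at h1
        rcases h1 with h1 | h1
        · obtain ⟨v, hv, rfl⟩ := List.mem_map.1 h1
          have := hlen v hv
          simp
          omega
        · obtain ⟨v, hv, rfl⟩ := List.mem_map.1 h1
          have := hlen v hv
          simp
          omega
    obtain ⟨h1, h2, h3, _⟩ := nextN_spec hF hg hus hW'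
    obtain ⟨vs, h4, h5, h6⟩ := walk_spec hF hg hadd hW k (nextN Z F p us) (us :: rest) h1 h2
      (by
        intro u hu
        obtain ⟨v, hv, b, rfl⟩ := h3 u hu
        have := hlen v hv
        simp
        omega)
    refine ⟨vs, ?_, h5, ?_⟩
    · rw [Function.iterate_succ_apply]
      exact h4
    · rw [Function.iterate_succ_apply]
      refine h6.trans ?_
      rw [List.foldl_cons, back_spec hF hg hus hW' (fun u hu => hadd u (by
        have := hlen u hu; omega))]

end Pool.Agent.TH762.RX
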