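import Pool.Agent.TH762.RX.CP

/-!
# From the residues modulo primes to the number
-/

set_option autoImplicit false

namespace Pool.Agent.TH762.RX

open Pool.Agent.NPC Pool.Agent.NPC.Cnt

/-! ### Many primes -/

theorem sq_lt_two_pow : ∀ T : ℕ, 5 ≤ T → T ^ 2 + 1 ≤ 2 ^ T := by
  intro T hT
  induction T, hT using Nat.le_induction with
  | base => norm_num
  | succ n hn ih =>
    have h1 : 2 ^ (n + 1) = 2 * 2 ^ n := by rw [pow_succ]; ring
    nlinarith

theorem many_primes {T : ℕ} (hT : 5 ≤ T) :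
    T ≤ ((Finset.range (T ^ 2 + 1)).filter Nat.Prime).card + 1 := by
  set k := ((Finset.range (T ^ 2 + 1)).filter Nat.Prime).card with hk
  have hcard : (Nat.primesLE (T ^ 2)).card = k := by
    rw [hk]
    congr 1
  have h1 := Chebyshev.two_pow_le_mul_lcmUpto (T ^ 2)
  have h2 : Nat.lcmUpto (T ^ 2) ≤ (T ^ 2) ^ k := by
    rw [Nat.lcmUpto_eq_prod_pow_log, ← hcard]
    refine Finset.prod_le_pow_card _ _ _ fun p _ => ?_
    exact Nat.pow_log_le_self p (by positivity)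
  have h3 : 2 ^ (T ^ 2) ≤ 2 ^ (T * (k + 1)) := by
    calc 2 ^ (T ^ 2) ≤ (T ^ 2 + 1) * (T ^ 2) ^ k := h1.trans (Nat.mul_le_mul_left _ h2)
      _ ≤ (T ^ 2 + 1) * (T ^ 2 + 1) ^ k := Nat.mul_le_mul_left _ (Nat.pow_le_pow_left (by omega) _)
      _ = (T ^ 2 + 1) ^ (k + 1) := by rw [pow_succ]; ring
      _ ≤ (2 ^ T) ^ (k + 1) := Nat.pow_le_pow_left (sq_lt_two_pow T hT) _
      _ = 2 ^ (T * (k + 1)) := by rw [← pow_mul]
  have h4 : T ^ 2 ≤ T * (k + 1) := (Nat.pow_le_pow_iff_right (by norm_num)).1 h3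
  rw [pow_two] at h4
  exact Nat.le_of_mul_le_mul_left h4 (by omega)

/-- the primes from `c0` to `T ^ 2` -/
def prl (c0 T : ℕ) : List ℕ :=
  (List.range (T ^ 2 + 1)).filter (fun n => decide (c0 ≤ n) && isPrB (T ^ 2 + 1) n)

theorem mem_prl {c0 T q : ℕ} : q ∈ prl c0 T ↔ q ≤ T ^ 2 ∧ c0 ≤ q ∧ q.Prime := by
  unfold prl
  rw [List.mem_filter, List.mem_range, Bool.and_eq_true, decide_eq_true_eq]
  constructor
  · rintro ⟨h1, h2, h3⟩
    exact ⟨by omega, h2, (isPrB_iff (by omega)).1 h3⟩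
  · rintro ⟨h1, h2, h3⟩
    exact ⟨by omega, h2, (isPrB_iff (by omega)).2 h3⟩

theorem prl_nodup (c0 T : ℕ) : (prl c0 T).Nodup := List.nodup_range.filter _

theorem prl_length {c0 s : ℕ} : s ≤ (prl c0 (s + c0 + 6)).length := by
  set T := s + c0 + 6 with hT
  have h1 := many_primes (T := T) (by omega)
  have h2 : (prl c0 T).toFinset = ((Finset.range (T ^ 2 + 1)).filter Nat.Prime).filter
      (fun q => c0 ≤ q) := by
    ext q
    rw [List.mem_toFinset, mem_prl, Finset.mem_filter, Finset.mem_filter, Finset.mem_range]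
    constructor
    · rintro ⟨h1, h2, h3⟩
      exact ⟨⟨by omega, h3⟩, h2⟩
    · rintro ⟨⟨h1, h3⟩, h2⟩
      exact ⟨by omega, h2, h3⟩
  rw [← List.toFinset_card_of_nodup (prl_nodup c0 T), h2]
  have h3 := Finset.card_filter_add_card_filter_not (s := (Finset.range (T ^ 2 + 1)).filter Nat.Prime)
    (fun q => c0 ≤ q)
  have h4 : (((Finset.range (T ^ 2 + 1)).filter Nat.Prime).filter (fun q => ¬ c0 ≤ q)).card ≤ c0 := by
    calc _ ≤ (Finset.range c0).card := Finset.card_le_card (by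
          intro q hq
          rw [Finset.mem_filter] at hq
          exact Finset.mem_range.2 (by omega))
      _ = c0 := Finset.card_range _
  omega

theorem two_pow_le_prod : ∀ l : List ℕ, (∀ q ∈ l, 2 ≤ q) → 2 ^ l.length ≤ l.prod
  | [], _ => by simp
  | q :: l, h => by
    rw [List.length_cons, List.prod_cons, pow_succ, mul_comm]
    exact Nat.mul_le_mul (h q List.mem_cons_self)
      (two_pow_le_prod l fun q' hq' => h q' (List.mem_cons_of_mem _ hq'))

/-! ### The Chinese remainder -/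

/-- one step: the new residue `r` modulo `q` -/
def cstp (r q : ℕ) (s : ℕ × ℕ) : ℕ × ℕ :=
  (s.1 + (((List.range q).filter (fun t => decide ((s.1 + t * s.2) % q = r))).head?.getD 0) * s.2,
    s.2 * q)

theorem cstp_lt {r q : ℕ} (hq : 1 ≤ q) {s : ℕ × ℕ} (hs : s.1 < s.2) :
    (cstp r q s).1 < (cstp r q s).2 := by
  unfold cstp
  have h1 : ((List.range q).filter (fun t => decide ((s.1 + t * s.2) % q = r))).head?.getD 0 < q := by
    generalize hl : (List.range q).filter (fun t => decide ((s.1 + t * s.2) % q = r)) = l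
    cases l with
    | nil =>
      show 0 < q
      omega
    | cons x l =>
      have hx : x ∈ (List.range q).filter (fun t => decide ((s.1 + t * s.2) % q = r)) := by
        rw [hl]; simp
      simpa using List.mem_range.1 (List.mem_filter.1 hx).1
  generalize ((List.range q).filter (fun t => decide ((s.1 + t * s.2) % q = r))).head?.getD 0 = t
    at h1
  show s.1 + t * s.2 < s.2 * q
  have h2 : (t + 1) * s.2 ≤ q * s.2 := Nat.mul_le_mul_right _ h1
  have h3 : s.2 * q = q * s.2 := Nat.mul_comm _ _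
  rw [Nat.add_mul] at h2
  omega

theorem cstp_spec {G q : ℕ} (hq : q.Prime) {s : ℕ × ℕ} (h1 : s.1 ≡ G [MOD s.2])
    (h2 : Nat.Coprime s.2 q) : (cstp (G % q) q s).1 ≡ G [MOD (cstp (G % q) q s).2] := by
  obtain ⟨t0, ht0⟩ : ∃ t, t < q ∧ (s.1 + t * s.2) % q = G % q := by
    -- solve `s.1 + t * s.2 ≡ G` modulo `q`
    obtain ⟨k, hk⟩ := Nat.chineseRemainder h2 s.1 G
    obtain ⟨a, ha⟩ : ∃ a : ℕ, s.1 + a * s.2 ≡ G [MOD q] := by
      have h3 : k + s.2 * s.1 ≡ s.1 [MOD s.2] := by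
        have : k + s.2 * s.1 ≡ k + 0 [MOD s.2] :=
          Nat.ModEq.add_left k ((Nat.modEq_zero_iff_dvd).2 (dvd_mul_right _ _))
        exact this.trans hk.1
      -- take a large representative
      obtain ⟨k', hk'1, hk'2⟩ : ∃ k', s.1 ≤ k' ∧ k' ≡ k [MOD s.2 * q] := by
        refine ⟨k + s.2 * q * s.1, ?_, ?_⟩
        · rcases Nat.eq_zero_or_pos s.2 with h0 | h0
          · rw [h0] at hk h2
            have := (Nat.coprime_zero_left q).1 h2
            exact absurd this hq.one_lt.ne'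
          · have : s.1 ≤ s.2 * q * s.1 := Nat.le_mul_of_pos_left _ (Nat.mul_pos h0 hq.pos)
            omega
        · have : k + s.2 * q * s.1 ≡ k + 0 [MOD s.2 * q] :=
            Nat.ModEq.add_left k ((Nat.modEq_zero_iff_dvd).2 (dvd_mul_right _ _))
          simpa using this
      have h4 : k' ≡ s.1 [MOD s.2] := (hk'2.of_mul_right q).trans hk.1
      obtain ⟨a, ha⟩ := (Nat.modEq_iff_dvd' hk'1).1 h4.symm
      refine ⟨a, ?_⟩
      have h5 : s.1 + a * s.2 = k' := by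
        rw [Nat.mul_comm a]
        omega
      rw [h5]
      exact (hk'2.of_mul_left s.2).trans hk.2
    refine ⟨a % q, Nat.mod_lt _ hq.pos, ?_⟩
    have h6 : s.1 + a % q * s.2 ≡ s.1 + a * s.2 [MOD q] :=
      Nat.ModEq.add_left _ (Nat.ModEq.mul_right _ (Nat.mod_modEq a q))
    exact h6.trans ha
  have h3 : (s.1 + ((List.range q).filter (fun t => decide ((s.1 + t * s.2) % q =
      G % q))).head?.getD 0 * s.2) % q = G % q := by
    generalize hl : (List.range q).filter (fun t => decide ((s.1 + t * s.2) % q = G % q)) = l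
    have hx0 : t0 ∈ (List.range q).filter (fun t => decide ((s.1 + t * s.2) % q = G % q)) :=
      List.mem_filter.2 ⟨List.mem_range.2 ht0.1, by simpa using ht0.2⟩
    rw [hl] at hx0
    cases l with
    | nil => simp at hx0
    | cons x l =>
      have hx : x ∈ (List.range q).filter (fun t => decide ((s.1 + t * s.2) % q = G % q)) := by
        rw [hl]; simp
      simpa using (List.mem_filter.1 hx).2
  unfold cstp
  generalize ((List.range q).filter (fun t => decide ((s.1 + t * s.2) % q =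
      G % q))).head?.getD 0 = t at h3
  show s.1 + t * s.2 ≡ G [MOD s.2 * q]
  rw [← Nat.modEq_and_modEq_iff_modEq_mul h2]
  refine ⟨?_, h3⟩
  have h4 : s.1 + t * s.2 ≡ s.1 + 0 [MOD s.2] :=
    Nat.ModEq.add_left _ ((Nat.modEq_zero_iff_dvd).2 (dvd_mul_left _ _))
  exact h4.trans h1

/-- all steps -/
def crt (D : ℕ → ℕ) (ps : List ℕ) (s : ℕ × ℕ) : ℕ × ℕ := ps.foldl (fun s q => cstp (D q) q s) s

theorem crt_lt {D : ℕ → ℕ} : ∀ (ps : List ℕ) (s : ℕ × ℕ), (∀ q ∈ ps, 1 ≤ q) → s.1 < s.2 →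
    (crt D ps s).1 < (crt D ps s).2 ∧ (crt D ps s).2 = s.2 * ps.prod
  | [], s, _, h => ⟨h, by simp [crt]⟩
  | q :: ps, s, hq, h => by
    have h1 := crt_lt (D := D) ps (cstp (D q) q s) (fun q' hq' => hq q' (List.mem_cons_of_mem _ hq'))
      (cstp_lt (hq q List.mem_cons_self) h)
    refine ⟨h1.1, ?_⟩
    have h2 : (crt D (q :: ps) s).2 = (crt D ps (cstp (D q) q s)).2 := rfl
    rw [h2, h1.2, List.prod_cons]
    show s.2 * q * ps.prod = _
    rw [Nat.mul_assoc]

theorem crt_spec {D : ℕ → ℕ} {G : ℕ} : ∀ (ps : List ℕ) (s : ℕ × ℕ), ps.Nodup →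
    (∀ q ∈ ps, q.Prime ∧ D q = G % q) → (∀ q ∈ ps, Nat.Coprime s.2 q) → s.1 ≡ G [MOD s.2] →
      (crt D ps s).1 ≡ G [MOD (crt D ps s).2]
  | [], s, _, _, _, h => h
  | q :: ps, s, hnd, hD, hcop, h => by
    rw [List.nodup_cons] at hnd
    obtain ⟨hq, hDq⟩ := hD q List.mem_cons_self
    have h1 : (cstp (D q) q s).1 ≡ G [MOD (cstp (D q) q s).2] := by
      rw [hDq]
      exact cstp_spec hq h (hcop q List.mem_cons_self)
    refine crt_spec ps _ hnd.2 (fun q' hq' => hD q' (List.mem_cons_of_mem _ hq')) ?_ h1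
    intro q' hq'
    show Nat.Coprime (s.2 * q) q'
    refine Nat.Coprime.mul_left (hcop q' (List.mem_cons_of_mem _ hq')) ?_
    rw [Nat.coprime_primes hq (hD q' (List.mem_cons_of_mem _ hq')).1]
    rintro rfl
    exact hnd.1 hq'

theorem crt_eq {D : ℕ → ℕ} {G c0 s : ℕ} (hG : G < 2 ^ s)
    (hD : ∀ q, q.Prime → c0 ≤ q → D q = G % q) :
    (crt D (prl c0 (s + c0 + 6)) (0, 1)).1 = G := by
  set ps := prl c0 (s + c0 + 6) with hps
  have h0 : ∀ q ∈ ps, q.Prime ∧ D q = G % q := fun q hq => by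
    obtain ⟨_, h1, h2⟩ := mem_prl.1 hq
    exact ⟨h2, hD q h2 h1⟩
  obtain ⟨h1, h2⟩ := crt_lt (D := D) ps (0, 1) (fun q hq => (h0 q hq).1.one_lt.le) Nat.one_pos
  have h3 := crt_spec ps (0, 1) (prl_nodup _ _) h0 (fun q _ => Nat.coprime_one_left q)
    (Nat.modEq_one)
  rw [Nat.one_mul] at h2
  have h4 : 2 ^ s ≤ ps.prod :=
    (Nat.pow_le_pow_right (by norm_num) prl_length).trans
      (two_pow_le_prod _ fun q hq => (h0 q hq).1.two_le)
  exact Nat.ModEq.eq_of_lt_of_lt h3 h1 (by omega)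

/-! ### Polynomial time -/

variable {α : Type} [TEnc α]

theorem prl_poly {T : α → ℕ} (c0 : ℕ) (hT : UPoly T) : NPC.Poly (fun a => prl c0 (T a)) := by
  unfold prl isPrB
  have uT : UPoly (fun a => T a ^ 2 + 1) :=
    (Pool.Agent.W901.FH.pow_upolyc hT 2).add (UPoly.const 1)
  refine NPC.Poly.filter (p := fun a n => decide (c0 ≤ n) &&
    (decide (2 ≤ n) && (List.range (T a ^ 2 + 1)).all (fun d =>
    !(decide (2 ≤ d) && decide (d < n)) || !decide (n % d = 0)))) uT.range ?_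
  have g1 : NPC.Poly (fun x : α × ℕ => x.1) := NPC.Poly.fst NPC.Poly.id
  have g2 : NPC.Poly (fun x : α × ℕ => x.2) := NPC.Poly.snd NPC.Poly.id
  refine NPC.Poly.and (NPC.Poly.decide_le (NPC.Poly.const c0) g2) (NPC.Poly.and
    (NPC.Poly.decide_le (NPC.Poly.const 2) g2) ?_)
  refine NPC.Poly.all (p := fun (x : α × ℕ) d =>
    !(decide (2 ≤ d) && decide (d < x.2)) || !decide (x.2 % d = 0)) (uT.range.comp g1) ?_
  have e1 : NPC.Poly (fun x : (α × ℕ) × ℕ => x.1.2) := NPC.Poly.snd (NPC.Poly.fst NPC.Poly.id)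
  have e2 : NPC.Poly (fun x : (α × ℕ) × ℕ => x.2) := NPC.Poly.snd NPC.Poly.id
  exact NPC.Poly.or (NPC.Poly.not (NPC.Poly.and (NPC.Poly.decide_le (NPC.Poly.const 2) e2)
    (NPC.Poly.decide_lt e2 e1))) (NPC.Poly.not (NPC.Poly.decide_eq (NPC.Poly.mod e1 e2)
    (NPC.Poly.const 0)))

theorem prod_le_pow {Q : ℕ} : ∀ l : List ℕ, (∀ q ∈ l, q ≤ Q) → l.prod ≤ Q ^ l.length
  | [], _ => by simp
  | q :: l, h => by
    rw [List.length_cons, List.prod_cons, pow_succ, mul_comm]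
    exact Nat.mul_le_mul (prod_le_pow l fun q' hq' => h q' (List.mem_cons_of_mem _ hq'))
      (h q List.mem_cons_self)

theorem crt_poly {T : α → ℕ} (c0 : ℕ) (hT : UPoly T) {D : α → ℕ → ℕ}
    (hD : NPC.Poly (fun q : α × ℕ => D q.1 (min q.2 (T q.1 ^ 2)))) :
    NPC.Poly (fun a => (crt (D a) (prl c0 (T a)) (0, 1)).1) := by
  obtain ⟨rT, hrT⟩ := upoly_le_eval hT
  have uT : UPoly (fun a => T a ^ 2) := Pool.Agent.W901.FH.pow_upolyc hT 2
  have key : ∀ a, ∀ l : List ℕ, (∀ q ∈ l, q ∈ prl c0 (T a)) → ∀ s : ℕ × ℕ,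
      l.foldl (fun s q => cstp (D a (min q (T a ^ 2))) (min q (T a ^ 2)) s) s =
        crt (D a) l s := by
    intro a l
    induction l with
    | nil => intro _ s; rfl
    | cons q l ih =>
      intro h s
      have h1 := (mem_prl.1 (h q List.mem_cons_self)).1
      rw [List.foldl_cons, ih fun q' hq' => h q' (List.mem_cons_of_mem _ hq'), min_eq_left h1]
      rfl
  have h0 : NPC.Poly (fun a => (prl c0 (T a)).foldl
      (fun s q => cstp (D a (min q (T a ^ 2))) (min q (T a ^ 2)) s) (0, 1)) := by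
    refine NPC.Poly.foldl (l := fun a => prl c0 (T a)) (s := fun _ => ((0, 1) : ℕ × ℕ))
      (F := fun a s q => cstp (D a (min q (T a ^ 2))) (min q (T a ^ 2)) s) (prl_poly c0 hT)
      (NPC.Poly.const _) ?_ (Polynomial.C 8 * ((rT ^ 2 + 1) * (rT ^ 2 + 1) + 1) + 3) ?_
    · unfold cstp
      have e1 : NPC.Poly (fun x : α × (ℕ × ℕ) × ℕ => x.1) := NPC.Poly.fst NPC.Poly.id
      have ec : NPC.Poly (fun x : α × (ℕ × ℕ) × ℕ => x.2.1.1) :=
        NPC.Poly.fst (NPC.Poly.fst (NPC.Poly.snd NPC.Poly.id))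
      have eM : NPC.Poly (fun x : α × (ℕ × ℕ) × ℕ => x.2.1.2) :=
        NPC.Poly.snd (NPC.Poly.fst (NPC.Poly.snd NPC.Poly.id))
      have eq0 : NPC.Poly (fun x : α × (ℕ × ℕ) × ℕ => x.2.2) :=
        NPC.Poly.snd (NPC.Poly.snd NPC.Poly.id)
      have uq : UPoly (fun x : α × (ℕ × ℕ) × ℕ => min x.2.2 (T x.1 ^ 2)) :=
        UPoly.of_le (NPC.Poly.min eq0 (uT.comp e1).toPoly) (uT.comp e1) (fun _ => min_le_right _ _)
      have er : NPC.Poly (fun x : α × (ℕ × ℕ) × ℕ => D x.1 (min x.2.2 (T x.1 ^ 2))) :=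
        hD.comp (NPC.Poly.pair e1 eq0)
      have et : NPC.Poly (fun x : α × (ℕ × ℕ) × ℕ => ((List.range (min x.2.2 (T x.1 ^ 2))).filter
          (fun t => decide ((x.2.1.1 + t * x.2.1.2) % (min x.2.2 (T x.1 ^ 2)) =
            D x.1 (min x.2.2 (T x.1 ^ 2))))).head?.getD 0) := by
        refine NPC.Poly.head?_getD (NPC.Poly.filter
          (l := fun x : α × (ℕ × ℕ) × ℕ => List.range (min x.2.2 (T x.1 ^ 2)))
          (p := fun x t => decide ((x.2.1.1 + t * x.2.1.2) % (min x.2.2 (T x.1 ^ 2)) =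
            D x.1 (min x.2.2 (T x.1 ^ 2)))) uq.range ?_) 0
        have f1 : NPC.Poly (fun y : (α × (ℕ × ℕ) × ℕ) × ℕ => y.1) := NPC.Poly.fst NPC.Poly.id
        exact NPC.Poly.decide_eq (NPC.Poly.mod (NPC.Poly.add (ec.comp f1) (NPC.Poly.mul
          (NPC.Poly.snd NPC.Poly.id) (eM.comp f1))) (uq.toPoly.comp f1)) (er.comp f1)
      exact NPC.Poly.pair (NPC.Poly.add ec (NPC.Poly.mul et eM)) (NPC.Poly.mul eM uq.toPoly)
    · intro a k _
      have hmem : ∀ q ∈ (prl c0 (T a)).take k, q ∈ prl c0 (T a) := fun q hq =>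
        List.mem_of_mem_take hq
      show sz (((prl c0 (T a)).take k).foldl
        (fun s q => cstp (D a (min q (T a ^ 2))) (min q (T a ^ 2)) s) (0, 1)) ≤ _
      rw [key a _ hmem]
      obtain ⟨h1, h2⟩ := crt_lt (D := D a) ((prl c0 (T a)).take k) (0, 1)
        (fun q hq => (mem_prl.1 (hmem q hq)).2.2.one_lt.le) Nat.one_pos
      rw [Nat.one_mul] at h2
      have h3 := prod_le_pow (Q := T a ^ 2) _ fun q hq => (mem_prl.1 (hmem q hq)).1
      have h4 : ((prl c0 (T a)).take k).length ≤ T a ^ 2 + 1 := by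
        rw [List.length_take]
        refine (min_le_right _ _).trans ?_
        unfold prl
        refine (List.length_filter_le _ _).trans ?_
        rw [List.length_range]
      have h5 : ((prl c0 (T a)).take k).prod < 2 ^ ((T a ^ 2 + 1) * (T a ^ 2 + 1) + 1) := by
        have g1 : T a ^ 2 < 2 ^ (T a ^ 2) := Nat.lt_two_pow_self
        calc ((prl c0 (T a)).take k).prod ≤ (T a ^ 2) ^ ((prl c0 (T a)).take k).length := h3
          _ ≤ (2 ^ (T a ^ 2)) ^ ((prl c0 (T a)).take k).length := Nat.pow_le_pow_left g1.le _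
          _ ≤ (2 ^ (T a ^ 2)) ^ (T a ^ 2 + 1) := Nat.pow_le_pow_right (by positivity) h4
          _ = 2 ^ (T a ^ 2 * (T a ^ 2 + 1)) := by rw [← pow_mul]
          _ ≤ 2 ^ ((T a ^ 2 + 1) * (T a ^ 2 + 1)) :=
            Nat.pow_le_pow_right (by norm_num) (Nat.mul_le_mul_right _ (by omega))
          _ < _ := Nat.pow_lt_pow_right (by norm_num) (by omega)
      set r := crt (D a) ((prl c0 (T a)).take k) (0, 1) with hr
      have h6 : r.2.size ≤ (T a ^ 2 + 1) * (T a ^ 2 + 1) + 1 := Nat.size_le.2 (by omega)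
      have h7 : r.1.size ≤ (T a ^ 2 + 1) * (T a ^ 2 + 1) + 1 := Nat.size_le.2 (by omega)
      have h8 := sz_nat_le r.1
      have h9 := sz_nat_le r.2
      have h10 : sz r = sz r.1 + sz r.2 + 1 := by
        conv_lhs => rw [← Prod.eta r]
        rw [sz_pair]
      have h11 : T a ^ 2 ≤ rT.eval (sz a) ^ 2 := Nat.pow_le_pow_left (hrT a) 2
      have h12 : (T a ^ 2 + 1) * (T a ^ 2 + 1) ≤ (rT.eval (sz a) ^ 2 + 1) *
        (rT.eval (sz a) ^ 2 + 1) := Nat.mul_le_mul (by omega) (by omega)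
      rw [h10]
      simp only [Polynomial.eval_add, Polynomial.eval_mul, Polynomial.eval_one, Polynomial.eval_C,
        Polynomial.eval_ofNat, Polynomial.eval_pow]
      omega
  refine (NPC.Poly.fst h0).congr fun a => ?_
  rw [key a _ (fun q hq => hq)]

end Pool.Agent.TH762.RX
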