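import Pool.Agent.H527R2.SharpP

/-!
# Partial information about the values of `#P` functions modulo prime powers: definitions

Polynomial time is Mathlib's `Turing.TM2ComputableInPolyTime` (through `Pool.Agent.NPC.PolyTime`).
-/

set_option autoImplicit false

namespace Pool.Agent.TH762.RX

open Pool.Agent.NPC Pool.Agent.NPC.Cnt

/-- The number `n` in unary. -/
def un (n : ℕ) : List Bool := List.replicate n true

/-- The function `f` is hard for `#P` under polynomial-time reductions which preserve the value
modulo all powers of all sufficiently large primes: the reduction gets the modulus. (Parsimonious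
reductions do this, and also reductions which preserve the value up to a known factor that is
prime to the modulus, if a value can be multiplied by a given number.) -/
def ModHard (f : List Bool → ℕ) : Prop :=
  ∀ g : List Bool → ℕ, SharpP g → ∃ (r : List Bool → List Bool) (c : ℕ), PolyTime r ∧
    ∀ (x : List Bool) (p k : ℕ), p.Prime → c ≤ p → f (r (bits (x, p ^ k))) ≡ g x [MOD p ^ k]

/-- One vector of the family `t` of vectors of residues can be excluded. For all primes `p` and all
`n` with `b ≤ p` and `p ^ b ≤ n` there are a number `m` and a number `a` (advice), both at most
`n ^ b + b`, such that for all lists of `m` strings of length at most `n` the output `l ≤ p ^ b` of the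
polynomial-time algorithm `X` (on the list, `a`, `p` and `n` in unary) is the number of a vector of the
family which differs from the vector of the values of `f` modulo `p ^ (p ^ b)`. The entry `i` of the
vector number `l` is the value of `t` at `(p, m, l, i)`, where `p` is written in unary. -/
def VectorExcluded (f t : List Bool → ℕ) : Prop :=
  ∃ (X : List Bool → ℕ) (b : ℕ), PolyTime (fun z => bits (X z)) ∧
    ∀ n p : ℕ, p.Prime → b ≤ p → p ^ b ≤ n → ∃ m a : ℕ, m ≤ n ^ b + b ∧ a ≤ n ^ b + b ∧
      ∀ qs : List (List Bool), qs.length = m → (∀ y ∈ qs, y.length ≤ n) →
        X (bits (qs, (a, (p, un n)))) ≤ p ^ b ∧ ∃ i < m,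
          ¬ f (qs.getD i []) ≡ t (bits (un p, (m, (X (bits (qs, (a, (p, un n)))), i))))
            [MOD p ^ (p ^ b)]

/-- One value of one digit of `f y` in base `p` can be excluded. For all primes `p` and all `n` with
`b ≤ p` and `p ^ b ≤ n` there is a number `a ≤ n ^ b + b` (advice) such that for all strings `y` of
length at most `n` the output `(j, d)` of the polynomial-time algorithm `X` (on `y`, `a`, `p` and `n`
in unary) is such that `j < p ^ b`, `d < p`, and the digit number `j` of `f y` in base `p` is not `d`. -/
def DigitExcluded (f : List Bool → ℕ) : Prop :=
  ∃ (X : List Bool → ℕ × ℕ) (b : ℕ), PolyTime (fun z => bits (X z)) ∧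
    ∀ n p : ℕ, p.Prime → b ≤ p → p ^ b ≤ n → ∃ a : ℕ, a ≤ n ^ b + b ∧
      ∀ y : List Bool, y.length ≤ n →
        (X (bits (y, (a, (p, un n))))).1 < p ^ b ∧ (X (bits (y, (a, (p, un n))))).2 < p ∧
          f y / p ^ (X (bits (y, (a, (p, un n))))).1 % p ≠ (X (bits (y, (a, (p, un n))))).2

/-- The number of satisfying assignments of a formula in conjunctive normal form (a list of clauses,
which are lists of literals; a literal is a Boolean value and the number of a variable). Only the
variables that occur count. Strings which are not codes of formulas have value `0`. -/
noncomputable def sharpSat : List Bool → ℕ := strFn (fun φ : CNF ℕ => satCount φ)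

end Pool.Agent.TH762.RX
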