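import Pool.Agent.TH762.RX.Cand
import Pool.Agent.TH762.RX.CP

/-!
# The walk is polynomial
-/

set_option autoImplicit false

namespace Pool.Agent.TH762.RX

open Pool.Agent.NPC Pool.Agent.NPC.Cnt

variable {α γ : Type} [TEnc α] [TEnc γ]

theorem sz_vec {c : List ℕ} {l p : ℕ} (h1 : c.length ≤ l) (h2 : ∀ a ∈ c, a < p) :
    sz c ≤ l * (4 * p + 2) + 1 := by
  have h3 := sz_le_length_mul c (4 * p + 1) (fun a ha => by
    have h4 := sz_nat_le a
    have h5 := NPC.Poly.size_le_self a
    have h6 := h2 a ha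
    omega)
  have h4 : c.length * (4 * p + 1 + 1) ≤ l * (4 * p + 2) := Nat.mul_le_mul_right _ h1
  omega

theorem sz_vecs {K : List (List ℕ)} {f l p : ℕ} (h0 : K.length ≤ f)
    (h1 : ∀ c ∈ K, c.length ≤ l ∧ ∀ a ∈ c, a < p) :
    sz K ≤ f * (l * (4 * p + 2) + 2) + 1 := by
  have h3 := sz_le_length_mul K (l * (4 * p + 2) + 1) (fun c hc => sz_vec (h1 c hc).1 (h1 c hc).2)
  have h4 : K.length * (l * (4 * p + 2) + 1 + 1) ≤ f * (l * (4 * p + 2) + 2) :=
    Nat.mul_le_mul_right _ h0
  omega

theorem sz_nodes {us : List (List Bool)} {f l : ℕ} (h0 : us.length ≤ f)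
    (h1 : ∀ u ∈ us, u.length ≤ l) : sz us ≤ f * (4 * l + 2) + 1 := by
  have h3 := sz_le_length_mul us (4 * l + 1) (fun u hu => by
    have h4 := sz_listBool_le u
    have h5 := h1 u hu
    omega)
  have h4 : us.length * (4 * l + 1 + 1) ≤ f * (4 * l + 2) := Nat.mul_le_mul_right _ h0
  omega

theorem addc_poly {Z : γ → List (List ℕ) → ℕ}
    (hZ : NPC.Poly (fun q : γ × List (List ℕ) => Z q.1 q.2)) {F : γ → ℕ} (hF : NPC.Poly F)
    {K : γ → List (List ℕ)} {c : γ → List ℕ} (hK : NPC.Poly K) (hc : NPC.Poly c) :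
    NPC.Poly (fun a => addc (Z a) (F a) (K a) (c a)) := by
  unfold addc
  have h1 : NPC.Poly (fun a => K a ++ [c a]) :=
    NPC.Poly.append hK (NPC.Poly.cons hc (NPC.Poly.const []))
  have h2 : NPC.Poly (fun a => Z a (K a ++ [c a])) := hZ.comp (NPC.Poly.pair NPC.Poly.id h1)
  refine NPC.Poly.ite (NPC.Poly.decide_lt (NPC.Poly.length h1) hF) h1 ?_
  refine poly_tk ?_ (NPC.Poly.sub hF (NPC.Poly.const 1))
  exact (NPC.Poly.append (poly_tk h1 h2) (poly_dp h1 (NPC.Poly.add h2 (NPC.Poly.const 1)))).congr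
    fun a => (List.eraseIdx_eq_take_drop_succ _ _).symm

theorem prune_poly {Z : γ → List (List ℕ) → ℕ}
    (hZ : NPC.Poly (fun q : γ × List (List ℕ) => Z q.1 q.2)) {F : γ → ℕ} (hF : UPoly F)
    {cs : γ → List (List ℕ)} (hcs : NPC.Poly cs) :
    NPC.Poly (fun a => prune (Z a) (F a) (cs a)) := by
  unfold prune
  obtain ⟨rF, hrF⟩ := upoly_le_eval hF
  obtain ⟨rc, hrc⟩ := hcs.sz_le
  refine NPC.Poly.foldl (l := cs) (s := fun _ => ([] : List (List ℕ)))
    (F := fun a K c => addc (Z a) (F a) K c) hcs (NPC.Poly.const _) ?_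
    (rF * (rc + 1) + 1) ?_
  · have e1 : NPC.Poly (fun q : γ × List (List ℕ) × List ℕ => q.1) := NPC.Poly.fst NPC.Poly.id
    have e2 : NPC.Poly (fun q : γ × List (List ℕ) × List ℕ => q.2.1) :=
      NPC.Poly.fst (NPC.Poly.snd NPC.Poly.id)
    have e3 : NPC.Poly (fun q : γ × List (List ℕ) × List ℕ => q.2.2) :=
      NPC.Poly.snd (NPC.Poly.snd NPC.Poly.id)
    exact addc_poly (Z := fun (q : γ × List (List ℕ) × List ℕ) K => Z q.1 K)
      (F := fun q => F q.1) (K := fun q => q.2.1) (c := fun q => q.2.2)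
      (hZ.comp (NPC.Poly.pair (e1.comp (NPC.Poly.fst NPC.Poly.id)) (NPC.Poly.snd NPC.Poly.id)))
      (hF.toPoly.comp e1) e2 e3
  · intro a k _
    have h1 : (((cs a).take k).foldl (addc (Z a) (F a)) []).length ≤ F a - 1 :=
      foldl_addc_length _ _ (Nat.zero_le _)
    have h2 : ∀ c ∈ ((cs a).take k).foldl (addc (Z a) (F a)) [], sz c ≤ rc.eval (sz a) := by
      intro c hc
      rcases foldl_addc_mem _ _ hc with h3 | h3
      · simp at h3
      · have h4 := sz_le_of_mem (List.mem_of_mem_take h3)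
        have h5 := hrc a
        omega
    have h3 := sz_le_length_mul _ _ h2
    have h4 := hrF a
    have h5 : (((cs a).take k).foldl (addc (Z a) (F a)) []).length * (rc.eval (sz a) + 1) ≤
        rF.eval (sz a) * (rc.eval (sz a) + 1) := Nat.mul_le_mul_right _ (by omega)
    have h6 : sz (((cs a).take k).foldl (addc (Z a) (F a)) []) ≤
        rF.eval (sz a) * (rc.eval (sz a) + 1) + 1 := by omega
    simpa only [Polynomial.eval_add, Polynomial.eval_mul, Polynomial.eval_one] using h6

theorem ext_poly {p : γ → ℕ} (hp : UPoly p) {K : γ → List (List ℕ)} (hK : NPC.Poly K) :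
    NPC.Poly (fun a => ext (p a) (K a)) := by
  unfold ext
  refine NPC.Poly.flatMap (l := K) (F := fun a c => (List.range (p a)).map (fun b => b :: c)) hK ?_
  refine NPC.Poly.map (l := fun q : γ × List ℕ => List.range (p q.1))
    (F := fun q b => b :: q.2) (hp.range.comp (NPC.Poly.fst NPC.Poly.id)) ?_
  exact NPC.Poly.cons (NPC.Poly.snd NPC.Poly.id) (NPC.Poly.snd (NPC.Poly.fst NPC.Poly.id))

theorem foldr_cstep_shape (Z : List (List Bool) → List (List ℕ) → ℕ) (F p : ℕ) :
    ∀ us : List (List Bool), (us.foldr (cstep Z F p) ([], [[]])).2.length ≤ F + 1 ∧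
      ∀ c ∈ (us.foldr (cstep Z F p) ([], [[]])).2, c.length ≤ us.length ∧ ∀ a ∈ c, a < p
  | [] => by simp
  | u :: us => by
    obtain ⟨_, h2⟩ := foldr_cstep_shape Z F p us
    rw [List.foldr_cons]
    have h3 : (cstep Z F p u (us.foldr (cstep Z F p) ([], [[]]))).2 =
      prune (Z (u :: (us.foldr (cstep Z F p) ([], [[]])).1)) F
        (ext p (us.foldr (cstep Z F p) ([], [[]])).2) := rfl
    rw [h3]
    refine ⟨(prune_length _ _ _).trans (by omega), fun c hc => ?_⟩
    obtain ⟨d, hd, a, ha, rfl⟩ := mem_ext.1 (prune_mem hc)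
    obtain ⟨h5, h6⟩ := h2 d hd
    refine ⟨by simp [h5], fun b hb => ?_⟩
    rcases List.mem_cons.1 hb with rfl | hb
    · exact ha
    · exact h6 b hb

section

variable {Z : α → List (List Bool) → List (List ℕ) → ℕ} {F p : α → ℕ}

theorem cands_poly (hZ : NPC.Poly (fun q : α × (List (List Bool) × List (List ℕ)) =>
      Z q.1 q.2.1 q.2.2)) (hF : UPoly F) (hp : UPoly p) {us : α → List (List Bool)}
    (hus : NPC.Poly us) : NPC.Poly (fun a => cands (Z a) (F a) (p a) (us a)) := by
  unfold cands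
  obtain ⟨rF, hrF⟩ := upoly_le_eval hF
  obtain ⟨rp, hrp⟩ := upoly_le_eval hp
  obtain ⟨ru, hru⟩ := hus.sz_le
  refine NPC.Poly.snd (NPC.Poly.foldr (l := us)
    (s := fun _ => (([], [[]]) : List (List Bool) × List (List ℕ)))
    (F := fun a u s => cstep (Z a) (F a) (p a) u s) hus (NPC.Poly.const _) ?_
    (ru + ((rF + 1) * (ru * (Polynomial.C 4 * rp + 2) + 2) + 1) + 1) ?_)
  · unfold cstep
    have e1 : NPC.Poly (fun q : α × List Bool × List (List Bool) × List (List ℕ) => q.1) :=
      NPC.Poly.fst NPC.Poly.id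
    have e2 : NPC.Poly (fun q : α × List Bool × List (List Bool) × List (List ℕ) => q.2.1) :=
      NPC.Poly.fst (NPC.Poly.snd NPC.Poly.id)
    have e3 : NPC.Poly (fun q : α × List Bool × List (List Bool) × List (List ℕ) => q.2.2.1) :=
      NPC.Poly.fst (NPC.Poly.snd (NPC.Poly.snd NPC.Poly.id))
    have e4 : NPC.Poly (fun q : α × List Bool × List (List Bool) × List (List ℕ) => q.2.2.2) :=
      NPC.Poly.snd (NPC.Poly.snd (NPC.Poly.snd NPC.Poly.id))
    have e5 := NPC.Poly.cons e2 e3
    refine NPC.Poly.pair e5 (prune_poly (Z := fun (q : α × List Bool × List (List Bool) ×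
      List (List ℕ)) K => Z q.1 (q.2.1 :: q.2.2.1) K) ?_ (hF.comp e1) (ext_poly (hp.comp e1) e4))
    exact hZ.comp (NPC.Poly.pair (e1.comp (NPC.Poly.fst NPC.Poly.id)) (NPC.Poly.pair
      (e5.comp (NPC.Poly.fst NPC.Poly.id)) (NPC.Poly.snd NPC.Poly.id)))
  · intro a k _
    obtain ⟨h1, h2⟩ := foldr_cstep_shape (Z a) (F a) (p a) ((us a).drop k)
    have h3 := foldr_cstep_fst (Z a) (F a) (p a) ((us a).drop k)
    have h4 := NPC.Poly.sz_drop_le (us a) k
    have h5 := hru a
    have h6 := hrF a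
    have h7 := hrp a
    have h8 : ((us a).drop k).length ≤ ru.eval (sz a) := by
      have := length_lt_sz (us a)
      rw [List.length_drop]
      omega
    set s := ((us a).drop k).foldr (cstep (Z a) (F a) (p a)) ([], [[]]) with hs
    have h9 := sz_vecs (K := s.2) (f := rF.eval (sz a) + 1) (l := ru.eval (sz a))
      (p := rp.eval (sz a)) (by omega) (fun c hc => ⟨(h2 c hc).1.trans h8, fun b hb =>
        ((h2 c hc).2 b hb).trans_le h7⟩)
    have h10 : sz s = sz s.1 + sz s.2 + 1 := by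
      conv_lhs => rw [← Prod.eta s]
      rw [sz_pair]
    show sz s ≤ _
    rw [h10, h3]
    simp only [Polynomial.eval_add, Polynomial.eval_mul, Polynomial.eval_one, Polynomial.eval_C,
      Polynomial.eval_ofNat]
    omega

theorem fd_poly {a b : γ → List ℕ} (ha : NPC.Poly a) (hb : NPC.Poly b) :
    NPC.Poly (fun x => fd (a x) (b x)) := by
  unfold fd
  refine NPC.Poly.head?_getD (NPC.Poly.filter (l := fun x => List.range (a x).length)
    (p := fun x i => !decide ((a x).getD i 0 = (b x).getD i 0)) (UPoly.length ha).range ?_) 0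
  have e1 : NPC.Poly (fun q : γ × ℕ => q.1) := NPC.Poly.fst NPC.Poly.id
  have e2 : NPC.Poly (fun q : γ × ℕ => q.2) := NPC.Poly.snd NPC.Poly.id
  exact NPC.Poly.not (NPC.Poly.decide_eq (NPC.Poly.getD (ha.comp e1) e2 (NPC.Poly.const 0))
    (NPC.Poly.getD (hb.comp e1) e2 (NPC.Poly.const 0)))

theorem pos_poly {L : γ → List (List ℕ)} (hL : NPC.Poly L) : NPC.Poly (fun x => pos (L x)) := by
  unfold pos
  refine NPC.Poly.flatMap (l := L) (F := fun x a => (L x).map (fun b => fd a b)) hL ?_
  refine NPC.Poly.map (l := fun q : γ × List ℕ => L q.1) (F := fun q b => fd q.2 b)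
    (hL.comp (NPC.Poly.fst NPC.Poly.id)) ?_
  exact fd_poly (NPC.Poly.snd (NPC.Poly.fst NPC.Poly.id)) (NPC.Poly.snd NPC.Poly.id)

theorem pick_poly {L : γ → List (List ℕ)} {v : γ → List ℕ} (hL : NPC.Poly L) (hv : NPC.Poly v) :
    NPC.Poly (fun x => pick (L x) (v x)) := by
  unfold pick
  refine NPC.Poly.head?_getD (NPC.Poly.filter (l := L)
    (p := fun x w => decide ((pos (L x)).map (fun i => w.getD i 0) = v x)) hL ?_) []
  have e1 : NPC.Poly (fun q : γ × List ℕ => q.1) := NPC.Poly.fst NPC.Poly.id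
  refine NPC.Poly.decide_eq (NPC.Poly.map (l := fun q : γ × List ℕ => pos (L q.1))
    (F := fun q i => q.2.getD i 0) ((pos_poly hL).comp e1) ?_) (hv.comp e1)
  exact NPC.Poly.getD (NPC.Poly.snd (NPC.Poly.fst NPC.Poly.id)) (NPC.Poly.snd NPC.Poly.id)
    (NPC.Poly.const 0)

theorem chl_poly {us : γ → List (List Bool)} (hus : NPC.Poly us) :
    NPC.Poly (fun x => chl (us x)) := by
  unfold chl
  have h : ∀ b : Bool, NPC.Poly (fun x => (us x).map (fun u => u ++ [b])) := fun b =>
    NPC.Poly.map (l := us) (F := fun _ u => u ++ [b]) hus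
      (NPC.Poly.append (NPC.Poly.snd NPC.Poly.id) (NPC.Poly.const [b]))
  exact NPC.Poly.append (h false) (h true)

theorem nextN_poly (hZ : NPC.Poly (fun q : α × (List (List Bool) × List (List ℕ)) =>
      Z q.1 q.2.1 q.2.2)) (hF : UPoly F) (hp : UPoly p) {us : α → List (List Bool)}
    (hus : NPC.Poly us) : NPC.Poly (fun a => nextN (Z a) (F a) (p a) (us a)) := by
  unfold nextN
  have h1 := chl_poly hus
  refine NPC.Poly.map (l := fun a => pos (cands (Z a) (F a) (p a) (chl (us a))))
    (F := fun a i => (chl (us a)).getD i []) (pos_poly (cands_poly hZ hF hp h1)) ?_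
  exact NPC.Poly.getD (h1.comp (NPC.Poly.fst NPC.Poly.id)) (NPC.Poly.snd NPC.Poly.id)
    (NPC.Poly.const [])

theorem zipWith_poly {p : γ → ℕ} {a b : γ → List ℕ} (hp : NPC.Poly p) (ha : NPC.Poly a)
    (hb : NPC.Poly b) : NPC.Poly (fun x => List.zipWith (fun c d => (c + d) % p x) (a x) (b x)) := by
  refine (NPC.Poly.map (l := fun x => (a x).zip (b x)) (F := fun x q => (q.1 + q.2) % p x)
    (NPC.Poly.zip ha hb) ?_).congr fun x => ?_
  · exact NPC.Poly.mod (NPC.Poly.add (NPC.Poly.fst (NPC.Poly.snd NPC.Poly.id))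
      (NPC.Poly.snd (NPC.Poly.snd NPC.Poly.id))) (hp.comp (NPC.Poly.fst NPC.Poly.id))
  · simp only [List.zip_eq_zipWith, List.map_zipWith]

theorem back_poly (hZ : NPC.Poly (fun q : α × (List (List Bool) × List (List ℕ)) =>
      Z q.1 q.2.1 q.2.2)) (hF : UPoly F) (hp : UPoly p) {vals : α → List ℕ}
    {us : α → List (List Bool)} (hv : NPC.Poly vals) (hus : NPC.Poly us) :
    NPC.Poly (fun a => back (Z a) (F a) (p a) (vals a) (us a)) := by
  unfold back
  have h1 := pick_poly (cands_poly hZ hF hp (chl_poly hus)) hv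
  exact zipWith_poly hp.toPoly (poly_tk h1 (NPC.Poly.length hus)) (poly_dp h1 (NPC.Poly.length hus))

theorem down_poly (hZ : NPC.Poly (fun q : α × (List (List Bool) × List (List ℕ)) =>
      Z q.1 q.2.1 q.2.2)) (hF : UPoly F) (hp : UPoly p) {S : α → List (List (List Bool))}
    (hS : NPC.Poly S) : NPC.Poly (fun a => down (Z a) (F a) (p a) (S a)) := by
  unfold down
  exact NPC.Poly.cons (nextN_poly hZ hF hp (NPC.Poly.head?_getD hS [])) hS

end

/-! ### Sizes in the walk -/

theorem cands_length (Z : List (List Bool) → List (List ℕ) → ℕ) (F p : ℕ)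
    (us : List (List Bool)) : (cands Z F p us).length ≤ F + 1 :=
  (foldr_cstep_shape Z F p us).1

theorem nextN_length (Z : List (List Bool) → List (List ℕ) → ℕ) (F p : ℕ)
    (us : List (List Bool)) : (nextN Z F p us).length ≤ (F + 1) ^ 2 := by
  unfold nextN pos
  rw [List.length_map, List.length_flatMap]
  simp only [List.length_map, List.map_const', List.sum_replicate, smul_eq_mul]
  rw [pow_two]
  exact Nat.mul_le_mul (cands_length Z F p _) (cands_length Z F p _)

theorem nextN_node (Z : List (List Bool) → List (List ℕ) → ℕ) (F p : ℕ)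
    {us : List (List Bool)} {l : ℕ} (h : ∀ u ∈ us, u.length ≤ l) :
    ∀ u ∈ nextN Z F p us, u.length ≤ l + 1 := by
  intro u hu
  unfold nextN at hu
  obtain ⟨i, _, rfl⟩ := List.mem_map.1 hu
  by_cases hi : i < (chl us).length
  · rw [List.getD_eq_getElem _ _ hi]
    have h6 : (chl us)[i] ∈ chl us := List.getElem_mem _
    generalize (chl us)[i] = w at h6
    unfold chl at h6
    rw [List.mem_append] at h6
    rcases h6 with h6 | h6
    · obtain ⟨v, hv, rfl⟩ := List.mem_map.1 h6
      have := h v hv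
      simp
      omega
    · obtain ⟨v, hv, rfl⟩ := List.mem_map.1 h6
      have := h v hv
      simp
      omega
  · rw [List.getD_eq_default _ _ (by omega)]
    simp

theorem down_iterate (Z : List (List Bool) → List (List ℕ) → ℕ) (F p : ℕ) (v : List Bool) :
    ∀ k : ℕ, ((down Z F p)^[k] [[v]]).length = k + 1 ∧
      ∀ us ∈ (down Z F p)^[k] [[v]], us.length ≤ (F + 1) ^ 2 ∧
        ∀ u ∈ us, u.length ≤ v.length + k
  | 0 => by
    refine ⟨rfl, fun us hus => ?_⟩
    simp only [Function.iterate_zero, id_eq, List.mem_singleton] at hus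
    subst hus
    refine ⟨Nat.one_le_pow _ _ (by omega), fun u hu => ?_⟩
    rw [List.mem_singleton] at hu
    subst hu
    omega
  | k + 1 => by
    obtain ⟨h1, h2⟩ := down_iterate Z F p v k
    rw [Function.iterate_succ_apply']
    set S := (down Z F p)^[k] [[v]]
    refine ⟨by simp [down, h1], fun us hus => ?_⟩
    unfold down at hus
    rcases List.mem_cons.1 hus with rfl | hus
    · refine ⟨nextN_length _ _ _ _, ?_⟩
      rcases hS : S with _ | ⟨s, S'⟩
      · rw [hS] at h1
        simp at h1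
      · have h3 := h2 s (by rw [hS]; exact List.mem_cons_self)
        exact nextN_node Z F p h3.2
    · obtain ⟨h3, h4⟩ := h2 us hus
      exact ⟨h3, fun u hu => (h4 u hu).trans (by omega)⟩

theorem sz_down (Z : List (List Bool) → List (List ℕ) → ℕ) (F p : ℕ) (v : List Bool) (k : ℕ) :
    sz ((down Z F p)^[k] [[v]]) ≤ (k + 1) * ((F + 1) ^ 2 * (4 * (v.length + k) + 2) + 2) + 1 := by
  obtain ⟨h1, h2⟩ := down_iterate Z F p v k
  have h3 := sz_le_length_mul ((down Z F p)^[k] [[v]])
    ((F + 1) ^ 2 * (4 * (v.length + k) + 2) + 1)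
    (fun us hus => sz_nodes (h2 us hus).1 (h2 us hus).2)
  rw [h1] at h3
  exact h3

/-- the stack of the walk down -/
def stk (Z : List (List Bool) → List (List ℕ) → ℕ) (F p n : ℕ) (v : List Bool) :
    List (List (List Bool)) := (down Z F p)^[n] [[v]]

/-- the value computed by the walk down and up -/
def wlk (Z : List (List Bool) → List (List ℕ) → ℕ) (F p n : ℕ) (leaf : List Bool → ℕ)
    (v : List Bool) : ℕ :=
  ((stk Z F p n v).tail.foldl (back Z F p)
    (((stk Z F p n v).head?.getD []).map (fun u => leaf u % p))).head?.getD 0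

theorem wlk_spec {Z : List (List Bool) → List (List ℕ) → ℕ} {F p n : ℕ} (hF : 2 ≤ F)
    {g : List Bool → ℕ} (hg : ∀ u, g u < p)
    (hadd : ∀ u : List Bool, u.length < n → g u = (g (u ++ [false]) + g (u ++ [true])) % p)
    (hW : ∀ us : List (List Bool), us.length ≤ 2 * (F - 1) ^ 2 → (∀ u ∈ us, u.length ≤ n) →
      Works Z F p g us) {leaf : List Bool → ℕ} (hleaf : ∀ u, u.length = n → leaf u % p = g u)
    {v : List Bool} (hv : v.length ≤ n) :
    wlk Z F p (n - v.length) leaf v = g v := by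
  obtain ⟨vs, h1, h2, h3⟩ := walk_spec hF hg hadd hW (n - v.length) [v] [] (by simp)
    (by
      have : 1 ≤ (F - 1) ^ 2 := Nat.one_le_pow _ _ (by omega)
      simpa using this) (by simp; omega)
  unfold wlk stk
  rw [h1]
  have h4 : vs.map (fun u => leaf u % p) = vs.map g :=
    List.map_congr_left fun u hu => hleaf u (h2 u hu)
  simp only [Option.getD_some]
  rw [h4, h3]
  rfl

theorem foldl_back_shape {Z : List (List Bool) → List (List ℕ) → ℕ} {F p f : ℕ} (hp : 0 < p) :
    ∀ (S : List (List (List Bool))) (vals : List ℕ), vals.length ≤ f → (∀ a ∈ vals, a < p) →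
      (∀ us ∈ S, us.length ≤ f) → (S.foldl (back Z F p) vals).length ≤ f ∧
        ∀ a ∈ S.foldl (back Z F p) vals, a < p
  | [], vals, h1, h2, _ => ⟨h1, h2⟩
  | us :: S, vals, _, _, h3 => by
    rw [List.foldl_cons]
    refine foldl_back_shape hp S _ ?_ ?_ fun vs hvs => h3 vs (List.mem_cons_of_mem _ hvs)
    · unfold back
      rw [List.length_zipWith, List.length_take]
      have := h3 us List.mem_cons_self
      omega
    · intro a ha
      unfold back at ha
      obtain ⟨i, hi, rfl⟩ := List.getElem_of_mem ha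
      rw [List.getElem_zipWith]
      exact Nat.mod_lt _ hp

theorem wlk_poly {Z : α → List (List Bool) → List (List ℕ) → ℕ} {F p n : α → ℕ}
    (hZ : NPC.Poly (fun q : α × (List (List Bool) × List (List ℕ)) =>
      Z q.1 q.2.1 q.2.2)) (hF : UPoly F) (hp : UPoly p) (hp0 : ∀ a, 0 < p a) (hn : UPoly n)
    {leaf : α → List Bool → ℕ} (hleaf : NPC.Poly (fun q : α × List Bool => leaf q.1 q.2))
    {v : α → List Bool} (hv : NPC.Poly v) :
    NPC.Poly (fun a => wlk (Z a) (F a) (p a) (n a) (leaf a) (v a)) := by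
  obtain ⟨rF, hrF⟩ := upoly_le_eval hF
  obtain ⟨rp, hrp⟩ := upoly_le_eval hp
  obtain ⟨rn, hrn⟩ := upoly_le_eval hn
  obtain ⟨rv, hrv⟩ := upoly_le_eval (UPoly.length hv)
  have hstk : NPC.Poly (fun a => stk (Z a) (F a) (p a) (n a) (v a)) := by
    have h1 := NPC.Poly.iterLen (l := fun a => List.replicate (n a) ())
      (s := fun a : α => ([[v a]] : List (List (List Bool))))
      (F := fun a S => down (Z a) (F a) (p a) S) hn
      (NPC.Poly.cons (NPC.Poly.cons hv (NPC.Poly.const [])) (NPC.Poly.const [])) ?_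
      ((rn + 1) * ((rF + 1) ^ 2 * (Polynomial.C 4 * (rv + rn) + 2) + 2) + 1) ?_
    · refine h1.congr fun a => ?_
      rw [List.length_replicate]
      rfl
    · have e1 : NPC.Poly (fun q : α × List (List (List Bool)) => q.1) := NPC.Poly.fst NPC.Poly.id
      have e2 : NPC.Poly (fun q : α × List (List (List Bool)) => q.2) := NPC.Poly.snd NPC.Poly.id
      exact down_poly (Z := fun (q : α × List (List (List Bool))) => Z q.1)
        (F := fun q => F q.1) (p := fun q => p q.1)
        (hZ.comp (NPC.Poly.pair (e1.comp (NPC.Poly.fst NPC.Poly.id)) (NPC.Poly.snd NPC.Poly.id)))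
        (hF.comp e1) (hp.comp e1) e2
    · intro a k hk
      rw [List.length_replicate] at hk
      have h1 := sz_down (Z a) (F a) (p a) (v a) k
      have h2 := hrF a
      have h3 := hrn a
      have h3' := hrv a
      have h4 : k ≤ rn.eval (sz a) := hk.trans h3
      refine h1.trans ?_
      simp only [Polynomial.eval_add, Polynomial.eval_mul, Polynomial.eval_one, Polynomial.eval_C,
        Polynomial.eval_ofNat, Polynomial.eval_pow]
      have h5 : (F a + 1) ^ 2 ≤ (rF.eval (sz a) + 1) ^ 2 := Nat.pow_le_pow_left (by omega) 2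
      have h6 : (F a + 1) ^ 2 * (4 * ((v a).length + k) + 2) ≤ (rF.eval (sz a) + 1) ^ 2 *
        (4 * (rv.eval (sz a) + rn.eval (sz a)) + 2) := Nat.mul_le_mul h5 (by omega)
      have h7 := Nat.mul_le_mul (show k + 1 ≤ rn.eval (sz a) + 1 by omega)
        (Nat.add_le_add_right h6 2)
      omega
  have hlf : NPC.Poly (fun a => ((stk (Z a) (F a) (p a) (n a) (v a)).head?.getD []).map
      (fun u => leaf a u % p a)) := by
    refine NPC.Poly.map (l := fun a => (stk (Z a) (F a) (p a) (n a) (v a)).head?.getD [])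
      (F := fun a u => leaf a u % p a) (NPC.Poly.head?_getD hstk []) ?_
    exact NPC.Poly.mod hleaf (hp.toPoly.comp (NPC.Poly.fst NPC.Poly.id))
  unfold wlk
  refine NPC.Poly.head?_getD (NPC.Poly.foldl
    (l := fun a => (stk (Z a) (F a) (p a) (n a) (v a)).tail)
    (s := fun a => ((stk (Z a) (F a) (p a) (n a) (v a)).head?.getD []).map
      (fun u => leaf a u % p a))
    (F := fun a vals us => back (Z a) (F a) (p a) vals us)
    (NPC.Poly.tail hstk) hlf ?_ ((rF + 1) ^ 2 * (Polynomial.C 4 * rp + 2) + 1) ?_) 0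
  · have e1 : NPC.Poly (fun q : α × List ℕ × List (List Bool) => q.1) := NPC.Poly.fst NPC.Poly.id
    have e2 : NPC.Poly (fun q : α × List ℕ × List (List Bool) => q.2.1) :=
      NPC.Poly.fst (NPC.Poly.snd NPC.Poly.id)
    have e3 : NPC.Poly (fun q : α × List ℕ × List (List Bool) => q.2.2) :=
      NPC.Poly.snd (NPC.Poly.snd NPC.Poly.id)
    exact back_poly (Z := fun (q : α × List ℕ × List (List Bool)) => Z q.1)
      (F := fun q => F q.1) (p := fun q => p q.1)
      (hZ.comp (NPC.Poly.pair (e1.comp (NPC.Poly.fst NPC.Poly.id)) (NPC.Poly.snd NPC.Poly.id)))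
      (hF.comp e1) (hp.comp e1) e2 e3
  · intro a k _
    obtain ⟨h1, h2⟩ := down_iterate (Z a) (F a) (p a) (v a) (n a)
    change (stk (Z a) (F a) (p a) (n a) (v a)).length = _ at h1
    change ∀ us ∈ stk (Z a) (F a) (p a) (n a) (v a), _ at h2
    have h3 : ∀ us ∈ (stk (Z a) (F a) (p a) (n a) (v a)).tail.take k,
        us.length ≤ (F a + 1) ^ 2 :=
      fun us hus => (h2 us (List.mem_of_mem_tail (List.mem_of_mem_take hus))).1
    have h4 : (((stk (Z a) (F a) (p a) (n a) (v a)).head?.getD []).map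
        (fun u => leaf a u % p a)).length ≤ (F a + 1) ^ 2 := by
      rw [List.length_map]
      generalize stk (Z a) (F a) (p a) (n a) (v a) = S at h2
      cases S with
      | nil => simp
      | cons s S => exact (h2 s List.mem_cons_self).1
    obtain ⟨h5, h6⟩ := foldl_back_shape (Z := Z a) (F := F a) (hp0 a) _ _ h4 (by
      intro b hb
      obtain ⟨u, _, rfl⟩ := List.mem_map.1 hb
      exact Nat.mod_lt _ (hp0 a)) h3
    have h7 := hrF a
    have h8 := hrp a
    have h9 : (F a + 1) ^ 2 ≤ (rF.eval (sz a) + 1) ^ 2 := Nat.pow_le_pow_left (by omega) 2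
    have h10 := sz_vec (l := (rF.eval (sz a) + 1) ^ 2) (p := rp.eval (sz a)) (h5.trans h9)
      (fun b hb => (h6 b hb).trans_le h8)
    simpa only [Polynomial.eval_add, Polynomial.eval_mul, Polynomial.eval_one, Polynomial.eval_C,
        Polynomial.eval_ofNat, Polynomial.eval_pow] using h10

end Pool.Agent.TH762.RX
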