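import Pool.Agent.TH762.RX.LQ
import Pool.Agent.TH762.RX.Tm
import Pool.Agent.TH762.RX.Defs
import Pool.Agent.TH762.RX.Adv

/-!
# From the exclusion of a vector to the residues
-/

set_option autoImplicit false

namespace Pool.Agent.TH762.RX

open Pool.Agent.NPC Pool.Agent.NPC.Cnt
open Pool.Agent.W901.FH (pow_upolyc)
open Pool.Agent.H579R2.Spt (exists_pow_bound)
open Pool.Agent.W901.AT (size_le_of_lt_two_pow)

theorem poly_of_polyTime {β : Type} [TEnc β] [NPC.TDec β] [Inhabited β] {g : List Bool → β}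
    (h : PolyTime (fun z => bits (g z))) : NPC.Poly g := by
  have h1 : NPC.Poly (fun x => bits (g x)) := PIso.poly_iff.2 h
  have h2 : NPC.Poly (fun x => unbits β (bits (g x))) := poly_unbits.comp h1
  exact (NPC.Poly.optGetD h2 (NPC.Poly.const default)).congr fun x => by
    simp only [unbits_bits, Option.getD_some]

theorem un_poly {α : Type} [TEnc α] {n : α → ℕ} (hn : UPoly n) : NPC.Poly (fun a => un (n a)) := by
  refine (NPC.Poly.map (l := fun a => List.replicate (n a) ()) (F := fun _ _ => true) hn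
    (NPC.Poly.const true)).congr fun a => ?_
  rw [List.map_replicate]
  rfl

theorem un_length (n : ℕ) : (un n).length = n := List.length_replicate

/-- the questions of one session -/
def ses (R : Qy → List Bool) (M : ℕ) (x pu : List Bool) (us : List (List Bool))
    (K : List (List ℕ)) : List (List Bool) :=
  (List.range M).map (fun i => R (x, (pu, (us, (K, (M, i))))))

/-- the bound on the lengths of the questions -/
def Nf (e C : ℕ) (a : List Bool × List Bool) : ℕ := (a.1.length + a.2.length + C) ^ e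

/-- the excluded number; the parameters are the input and the prime in unary, the number of
questions and the advice -/
def Zf (X : List Bool → ℕ) (R : Qy → List Bool) (b e C : ℕ)
    (a : (List Bool × List Bool) × (ℕ × ℕ)) (us : List (List Bool)) (K : List (List ℕ)) : ℕ :=
  X (bits (ses R (min a.2.1 (Nf e C a.1 ^ b + b)) a.1.1 a.1.2 us K,
    (a.2.2, (a.1.2.length, un (Nf e C a.1)))))

theorem Nf_upoly (e C : ℕ) : UPoly (Nf e C) := by
  unfold Nf
  exact pow_upolyc (((UPoly.length (NPC.Poly.fst NPC.Poly.id)).add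
    (UPoly.length (NPC.Poly.snd NPC.Poly.id))).add (UPoly.const C)) e

theorem Zf_poly {X : List Bool → ℕ} {R : Qy → List Bool} (hX : NPC.Poly X)
    (hR : NPC.Poly R) (b e C : ℕ) :
    NPC.Poly (fun q : ((List Bool × List Bool) × (ℕ × ℕ)) × (List (List Bool) × List (List ℕ)) =>
      Zf X R b e C q.1 q.2.1 q.2.2) := by
  unfold Zf ses
  have a0 : NPC.Poly (fun q : ((List Bool × List Bool) × (ℕ × ℕ)) × (List (List Bool) ×
    List (List ℕ)) => q.1) := NPC.Poly.fst NPC.Poly.id
  have a1 := NPC.Poly.fst a0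
  have a2 : NPC.Poly (fun q : ((List Bool × List Bool) × (ℕ × ℕ)) × (List (List Bool) ×
    List (List ℕ)) => q.2.1) := NPC.Poly.fst (NPC.Poly.snd NPC.Poly.id)
  have a3 : NPC.Poly (fun q : ((List Bool × List Bool) × (ℕ × ℕ)) × (List (List Bool) ×
    List (List ℕ)) => q.2.2) := NPC.Poly.snd (NPC.Poly.snd NPC.Poly.id)
  have am := NPC.Poly.fst (NPC.Poly.snd a0)
  have aa := NPC.Poly.snd (NPC.Poly.snd a0)
  have uN : UPoly (fun q : ((List Bool × List Bool) × (ℕ × ℕ)) × (List (List Bool) ×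
    List (List ℕ)) => Nf e C q.1.1 ^ b + b) := (pow_upolyc ((Nf_upoly e C).comp a1) b).add
      (UPoly.const b)
  have uM : UPoly (fun q : ((List Bool × List Bool) × (ℕ × ℕ)) × (List (List Bool) ×
    List (List ℕ)) => min q.1.2.1 (Nf e C q.1.1 ^ b + b)) :=
      UPoly.of_le (NPC.Poly.min am uN.toPoly) uN (fun _ => min_le_right _ _)
  refine hX.comp (poly_bits.comp (NPC.Poly.pair ?_ (NPC.Poly.pair aa (NPC.Poly.pair
    (NPC.Poly.length (NPC.Poly.snd a1)) (un_poly ((Nf_upoly e C).comp a1))))))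
  refine NPC.Poly.map (l := fun q : ((List Bool × List Bool) × (ℕ × ℕ)) × (List (List Bool) ×
    List (List ℕ)) => List.range (min q.1.2.1 (Nf e C q.1.1 ^ b + b)))
    (F := fun q i => R (q.1.1.1, (q.1.1.2, (q.2.1, (q.2.2,
      (min q.1.2.1 (Nf e C q.1.1 ^ b + b), i)))))) uM.range ?_
  have b1 : NPC.Poly (fun z : (((List Bool × List Bool) × (ℕ × ℕ)) × (List (List Bool) ×
    List (List ℕ))) × ℕ => z.1) := NPC.Poly.fst NPC.Poly.id
  exact hR.comp (NPC.Poly.pair ((NPC.Poly.fst a1).comp b1) (NPC.Poly.pair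
    ((NPC.Poly.snd a1).comp b1) (NPC.Poly.pair (a2.comp b1) (NPC.Poly.pair (a3.comp b1)
    (NPC.Poly.pair (uM.toPoly.comp b1) (NPC.Poly.snd NPC.Poly.id))))))

/-- The exclusion works for all short lists of nodes. -/
theorem works {f t X : List Bool → ℕ} {b c : ℕ} {r : List Bool → List Bool}
    {V : List Bool → List Bool} {pp : Polynomial ℕ} {n p m ad : ℕ} (hm : m ≤ n ^ b + b)
    (h : ∀ qs : List (List Bool), qs.length = m → (∀ y ∈ qs, y.length ≤ n) →
        X (bits (qs, (ad, (p, un n)))) ≤ p ^ b ∧ ∃ i < m,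
          ¬ f (qs.getD i []) ≡ t (bits (un p, (m, (X (bits (qs, (ad, (p, un n)))), i))))
            [MOD p ^ (p ^ b)])
    (hr : ∀ (x : List Bool) (p k : ℕ), p.Prime → c ≤ p →
      f (r (bits (x, p ^ k))) ≡ strFn (lq V pp t b) x [MOD p ^ k])
    {R : Qy → List Bool} (hR : R = fun q => r (bits ((bits q : List Bool),
      q.2.1.length ^ (q.2.1.length ^ b)))) {x : List Bool} {e C : ℕ} (hp : p.Prime)
    (hcp : c ≤ p) (hn : Nf e C (x, un p) = n) {us : List (List Bool)}
    (hlen : ∀ K : List (List ℕ), K.length = p ^ b + 1 →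
      (∀ c ∈ K, c.length = us.length ∧ ∀ a ∈ c, a < p) →
      ∀ i < m, (R (x, (un p, (us, (K, (m, i)))))).length ≤ n) :
    Works (Zf X R b e C ((x, un p), (m, ad))) (p ^ b + 1) p
      (fun u => cntP V pp (x, u) % p) us := by
  intro K hK1 hK2 hK3 hK4
  set qs := ses R m x (un p) us K with hqs
  have hql : qs.length = m := by simp [hqs, ses]
  have hZ : Zf X R b e C ((x, un p), (m, ad)) us K = X (bits (qs, (ad, (p, un n)))) := by
    unfold Zf
    simp only [un_length, hn]
    rw [hqs, min_eq_left hm]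
  obtain ⟨h3, i, hi, h4⟩ := h qs hql (by
    intro y hy
    obtain ⟨i, hi, rfl⟩ := List.mem_map.1 hy
    exact hlen K hK2 hK3 i (List.mem_range.1 hi))
  rw [hZ]
  refine ⟨by omega, fun hcon => h4 ?_⟩
  set l := X (bits (qs, (ad, (p, un n)))) with hl
  have hlK : l < K.length := by omega
  rw [List.getD_eq_getElem _ _ hlK] at hcon
  have h5 : qs.getD i [] = R (x, (un p, (us, (K, (m, i))))) := by
    rw [List.getD_eq_getElem _ _ (by omega)]
    simp [hqs, ses]
  rw [h5, hR]
  have h6 := hr (bits ((x, (un p, (us, (K, (m, i))))) : Qy)) p (p ^ b) hp hcp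
  rw [strFn_bits] at h6
  have h7 := lq_mod (V := V) (pp := pp) (t := t) (b := b) (x := x) (pu := un p)
    (by rw [un_length]; exact hp) (us := us) hK1 (fun c hc => (hK3 c hc).1)
    (fun c hc a ha => by rw [un_length]; exact (hK3 c hc).2 a ha) hlK
    (by rw [un_length]; exact hcon) m i
  rw [un_length] at h7
  simp only [un_length]
  exact h6.trans h7

theorem wlkZ_poly {X : List Bool → ℕ} {R : Qy → List Bool} (hX : NPC.Poly X)
    (hR : NPC.Poly R) (b e C : ℕ) {F P n : List Bool × List Bool → ℕ} (hF : UPoly F) (hP : UPoly P)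
    (hP0 : ∀ a, 0 < P a) (hn : UPoly n) {leaf : List Bool × List Bool → List Bool → ℕ}
    (hleaf : NPC.Poly (fun q : (List Bool × List Bool) × List Bool => leaf q.1 q.2)) :
    NPC.Poly (fun q : (List Bool × List Bool) × ((ℕ × ℕ) × List Bool) =>
      wlk (Zf X R b e C (q.1, q.2.1)) (F q.1) (P q.1) (n q.1 - q.2.2.length) (leaf q.1) q.2.2) := by
  have g1 : NPC.Poly (fun q : (List Bool × List Bool) × ((ℕ × ℕ) × List Bool) => q.1) :=
    NPC.Poly.fst NPC.Poly.id
  have g2 : NPC.Poly (fun q : (List Bool × List Bool) × ((ℕ × ℕ) × List Bool) => q.2.1) :=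
    NPC.Poly.fst (NPC.Poly.snd NPC.Poly.id)
  have g3 : NPC.Poly (fun q : (List Bool × List Bool) × ((ℕ × ℕ) × List Bool) => q.2.2) :=
    NPC.Poly.snd (NPC.Poly.snd NPC.Poly.id)
  have hZ := Zf_poly hX hR b e C
  have hZ2 : NPC.Poly (fun y : ((List Bool × List Bool) × ((ℕ × ℕ) × List Bool)) ×
      (List (List Bool) × List (List ℕ)) => Zf X R b e C (y.1.1, y.1.2.1) y.2.1 y.2.2) := by
    have f1 : NPC.Poly (fun y : ((List Bool × List Bool) × ((ℕ × ℕ) × List Bool)) ×
      (List (List Bool) × List (List ℕ)) => (((y.1.1, y.1.2.1), y.2) :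
        ((List Bool × List Bool) × (ℕ × ℕ)) × (List (List Bool) × List (List ℕ)))) :=
      NPC.Poly.pair (NPC.Poly.pair (g1.comp (NPC.Poly.fst NPC.Poly.id))
        (g2.comp (NPC.Poly.fst NPC.Poly.id))) (NPC.Poly.snd NPC.Poly.id)
    exact (hZ.comp f1).congr fun y => rfl
  have hn2 : UPoly (fun q : (List Bool × List Bool) × ((ℕ × ℕ) × List Bool) =>
      n q.1 - q.2.2.length) :=
    UPoly.of_le (NPC.Poly.sub (hn.comp g1).toPoly (NPC.Poly.length g3)) (hn.comp g1)
      (fun _ => Nat.sub_le _ _)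
  have hl2 : NPC.Poly (fun y : ((List Bool × List Bool) × ((ℕ × ℕ) × List Bool)) × List Bool =>
      leaf y.1.1 y.2) := by
    have f1 : NPC.Poly (fun y : ((List Bool × List Bool) × ((ℕ × ℕ) × List Bool)) × List Bool =>
      ((y.1.1, y.2) : (List Bool × List Bool) × List Bool)) :=
      NPC.Poly.pair (g1.comp (NPC.Poly.fst NPC.Poly.id)) (NPC.Poly.snd NPC.Poly.id)
    exact (hleaf.comp f1).congr fun y => rfl
  exact @wlk_poly ((List Bool × List Bool) × ((ℕ × ℕ) × List Bool)) _
    (fun q => Zf X R b e C (q.1, q.2.1)) (fun q => F q.1) (fun q => P q.1)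
    (fun q => n q.1 - q.2.2.length) hZ2 (hF.comp g1) (hP.comp g1) (fun q => hP0 q.1) hn2
    (fun q => leaf q.1) hl2 (fun q => q.2.2) g3

/-- **The residues of a `#P` function modulo primes are computable if a vector can be excluded.** -/
theorem residues {f t : List Bool → ℕ} (hf : ModHard f) (ht : PolyTime (fun z => bits (t z)))
    (hex : VectorExcluded f t) {V : List Bool → List Bool} (hV : PolyTime V)
    (pp : Polynomial ℕ) :
    ∃ (D : List Bool × List Bool → ℕ) (c0 : ℕ), NPC.Poly D ∧ ∀ (x : List Bool) (p : ℕ), p.Prime →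
      c0 ≤ p → D (x, un p) = cntP V pp (x, []) % p := by
  obtain ⟨X, b, hX, h⟩ := hex
  have htp := poly_of_polyTime ht
  have hXp := poly_of_polyTime hX
  have hVp : NPC.Poly V := PIso.poly_iff.2 hV
  obtain ⟨r, c, hrp, hr⟩ := hf _ (CountP.sharpP (lq_countP hV pp htp b))
  set R : Qy → List Bool := fun q => r (bits ((bits q : List Bool),
      q.2.1.length ^ (q.2.1.length ^ b))) with hR
  have hRp : NPC.Poly R := by
    have u1 : UPoly (fun q : Qy => q.2.1.length) :=
      UPoly.length (NPC.Poly.fst (NPC.Poly.snd NPC.Poly.id))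
    exact (PIso.poly_iff.2 hrp).comp (poly_bits.comp (NPC.Poly.pair poly_bits
      (Uc.poly_upow (pow_upolyc u1 b) u1.toPoly)))
  obtain ⟨p1, hp1⟩ := hRp.sz_le
  set p3 : Polynomial ℕ := (Polynomial.C 4 * Polynomial.X + 1) + ((Polynomial.C 4 * Polynomial.X + 1)
    + ((Polynomial.C 2 * (Polynomial.X ^ b) ^ 2 * (Polynomial.C 4 * pp + 2) + 1) +
    (((Polynomial.X ^ b + 1) * (Polynomial.C 2 * (Polynomial.X ^ b) ^ 2 *
      (Polynomial.C 4 * Polynomial.X + 2) + 2) + 1) +
    ((Polynomial.C 4 * Polynomial.X ^ 2 + 1) + (Polynomial.C 4 * Polynomial.X ^ 2 + 1) + 1) + 1)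
      + 1) + 1) + 1 with hp3
  obtain ⟨e1, he1⟩ := exists_pow_bound (p1.comp p3)
  set e : ℕ := e1 + b with he
  set C : ℕ := e * b + b + 20 with hC
  set n : List Bool × List Bool → ℕ := fun a => pp.eval a.1.length with hn
  have hnU : UPoly n := (UPoly.length (NPC.Poly.fst NPC.Poly.id)).eval pp
  set F : List Bool × List Bool → ℕ := fun a => a.2.length ^ b + 1 with hF
  have hFU : UPoly F := (pow_upolyc (UPoly.length (NPC.Poly.snd NPC.Poly.id)) b).add (UPoly.const 1)
  set P : List Bool × List Bool → ℕ := fun a => max a.2.length 1 with hP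
  have hPU : UPoly P := by
    have u1 : UPoly (fun a : List Bool × List Bool => a.2.length) :=
      UPoly.length (NPC.Poly.snd NPC.Poly.id)
    refine UPoly.of_le (NPC.Poly.max u1.toPoly (NPC.Poly.const 1)) (u1.add (UPoly.const 1)) ?_
    intro a
    simp only [hP]
    omega
  set leaf : List Bool × List Bool → List Bool → ℕ := fun a u =>
    if V (pairBits a.1 u) = [true] then 1 else 0 with hleaf
  have hleafp : NPC.Poly (fun q : (List Bool × List Bool) × List Bool => leaf q.1 q.2) := by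
    simp only [hleaf]
    exact NPC.Poly.ite (NPC.Poly.decide_eq (hVp.comp (H622R2.poly_pairBits
      (NPC.Poly.fst (NPC.Poly.fst NPC.Poly.id)) (NPC.Poly.snd NPC.Poly.id)))
      (NPC.Poly.const [true])) (NPC.Poly.const 1) (NPC.Poly.const 0)
  set B : List Bool × List Bool → ℕ × ℕ → List Bool → ℕ := fun a γ v =>
    wlk (Zf X R b e C (a, γ)) (F a) (P a) (n a - v.length) (leaf a) v with hB
  have hBp : NPC.Poly (fun q : (List Bool × List Bool) × ((ℕ × ℕ) × List Bool) =>
      B q.1 q.2.1 q.2.2) :=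
    wlkZ_poly hXp hRp b e C hFU hPU (fun a => by simp only [hP]; omega) hnU hleafp
  set Γ : List Bool × List Bool → List (ℕ × ℕ) := fun a =>
    (List.range (Nf e C a ^ b + b + 1)).flatMap (fun m =>
      (List.range (Nf e C a ^ b + b + 1)).map (fun ad => (m, ad))) with hΓ
  have hΓp : NPC.Poly Γ := by
    have uN : UPoly (fun a => Nf e C a ^ b + b + 1) :=
      ((pow_upolyc (Nf_upoly e C) b).add (UPoly.const b)).add (UPoly.const 1)
    refine NPC.Poly.flatMap (l := fun a => List.range (Nf e C a ^ b + b + 1))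
      (F := fun a m => (List.range (Nf e C a ^ b + b + 1)).map (fun ad => (m, ad))) uN.range ?_
    exact NPC.Poly.map (l := fun q : (List Bool × List Bool) × ℕ =>
      List.range (Nf e C q.1 ^ b + b + 1)) (F := fun q ad => (q.2, ad))
      (uN.range.comp (NPC.Poly.fst NPC.Poly.id))
      (NPC.Poly.pair (NPC.Poly.snd (NPC.Poly.fst NPC.Poly.id)) (NPC.Poly.snd NPC.Poly.id))
  obtain ⟨D, hD, hDs⟩ := remove_advice hBp hΓp hnU hPU.toPoly hleafp
  refine ⟨D, max (max b c) 2, hD, ?_⟩
  intro x p hp hcp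
  have hbp : b ≤ p := le_trans (le_trans (le_max_left _ _) (le_max_left _ _)) hcp
  have hcp' : c ≤ p := le_trans (le_trans (le_max_right _ _) (le_max_left _ _)) hcp
  have hPp : P (x, un p) = p := by
    simp only [hP, un_length]
    exact max_eq_left hp.pos
  have hFp : F (x, un p) = p ^ b + 1 := by simp only [hF, un_length]
  have hpb : 1 ≤ p ^ b := Nat.one_le_pow _ _ hp.pos
  have hadd : ∀ u : List Bool, u.length < n (x, un p) → cntP V pp (x, u) % p =
      (cntP V pp (x, u ++ [false]) % p + cntP V pp (x, u ++ [true]) % p) % p := by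
    intro u hu
    rw [cntP_step V pp x u hu, Nat.add_mod]
  have hlf : ∀ u : List Bool, u.length = n (x, un p) → leaf (x, un p) u % p =
      cntP V pp (x, u) % p := by
    intro u hu
    have hu' : u.length = pp.eval x.length := hu
    rw [cntP_leaf V pp x u hu']
    simp only [hleaf]
    by_cases hv : V (pairBits x u) = [true] <;> simp [hv]
  refine hDs (x, un p) (fun u => cntP V pp (x, u) % p) (by rw [hPp]; exact hadd)
    (by rw [hPp]; exact hlf) ?_
  set B' : ℕ := x.length + p + C with hB'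
  have hB20 : 20 ≤ B' := by omega
  have hBp' : p ≤ B' := by omega
  have hxB : x.length ≤ B' := by omega
  have hN : Nf e C (x, un p) = B' ^ e := by
    unfold Nf
    simp only [un_length]
    rfl
  obtain ⟨m, ad, hm, had, h2⟩ := h (B' ^ e) p hp hbp (by
    calc p ^ b ≤ B' ^ b := Nat.pow_le_pow_left hBp' b
      _ ≤ B' ^ e := Nat.pow_le_pow_right (by omega) (by omega))
  refine ⟨(m, ad), ?_, fun v hv => ?_⟩
  · simp only [hΓ]
    rw [hN]
    exact List.mem_flatMap.2 ⟨m, List.mem_range.2 (by omega), List.mem_map.2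
      ⟨ad, List.mem_range.2 (by omega), rfl⟩⟩
  simp only [hB, hPp, hFp]
  refine wlk_spec (g := fun u => cntP V pp (x, u) % p) (by omega)
    (fun u => Nat.mod_lt _ hp.pos) hadd ?_ hlf hv
  intro us hus1 hus2
  refine works (c := c) hm h2 hr hR hp hcp' hN ?_
  intro K hK2 hK3 i hi
  have s1 : sz x ≤ 4 * B' + 1 := (sz_listBool_le x).trans (by omega)
  have s2 : sz (un p) ≤ 4 * B' + 1 := (sz_listBool_le _).trans (by rw [un_length]; omega)
  have s3 : sz us ≤ 2 * (B' ^ b) ^ 2 * (4 * pp.eval B' + 2) + 1 := by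
    refine sz_nodes ?_ (fun u hu => (hus2 u hu).trans (eval_mono pp hxB))
    refine hus1.trans ?_
    simp only [Nat.add_sub_cancel]
    exact Nat.mul_le_mul_left 2 (Nat.pow_le_pow_left (Nat.pow_le_pow_left hBp' b) 2)
  have s4 : sz K ≤ (B' ^ b + 1) * ((2 * (B' ^ b) ^ 2) * (4 * B' + 2) + 2) + 1 := by
    refine sz_vecs (by
      rw [hK2]
      exact Nat.add_le_add_right (Nat.pow_le_pow_left hBp' b) 1) (fun c hc => ⟨?_, fun a ha =>
        ((hK3 c hc).2 a ha).trans_le hBp'⟩)
    rw [(hK3 c hc).1]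
    refine hus1.trans ?_
    simp only [Nat.add_sub_cancel]
    exact Nat.mul_le_mul_left 2 (Nat.pow_le_pow_left (Nat.pow_le_pow_left hBp' b) 2)
  have hMsz : m < 2 ^ (B' * B') := by
    have g1 : B' < 2 ^ B' := Nat.lt_two_pow_self
    have g2 : (B' ^ e) ^ b ≤ 2 ^ (B' * (e * b)) := by
      calc (B' ^ e) ^ b = B' ^ (e * b) := by rw [← pow_mul]
        _ ≤ (2 ^ B') ^ (e * b) := Nat.pow_le_pow_left g1.le _
        _ = _ := by rw [← pow_mul]
    have g3 : b < 2 ^ b := Nat.lt_two_pow_self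
    have g4 : 1 ≤ 2 ^ (B' * (e * b)) := Nat.one_le_two_pow
    have g5 : 2 ^ (B' * (e * b) + b + 1) = 2 * (2 ^ (B' * (e * b)) * 2 ^ b) := by
      rw [pow_add, pow_add]; ring
    have g6 : 2 ^ (B' * (e * b)) ≤ 2 ^ (B' * (e * b)) * 2 ^ b :=
      Nat.le_mul_of_pos_right _ Nat.one_le_two_pow
    have g7 : 2 ^ b ≤ 2 ^ (B' * (e * b)) * 2 ^ b := Nat.le_mul_of_pos_left _ (by omega)
    have g8 : B' * (e * b) + b + 1 ≤ B' * B' := by
      have g9 : B' * (e * b + b + 20) ≤ B' * B' := Nat.mul_le_mul_left B' (by omega)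
      have g10 : B' * (e * b + b + 20) = B' * (e * b) + B' * b + B' * 20 := by ring
      have g11 : b ≤ B' * b := Nat.le_mul_of_pos_left _ (by omega)
      omega
    have g12 : 2 ^ (B' * (e * b) + b + 1) ≤ 2 ^ (B' * B') := Nat.pow_le_pow_right (by norm_num) g8
    omega
  have s5 : sz m ≤ 4 * B' ^ 2 + 1 := (sz_nat_le _).trans (by
    have := size_le_of_lt_two_pow hMsz
    rw [pow_two]
    omega)
  have s6 : sz i ≤ 4 * B' ^ 2 + 1 := (sz_nat_le _).trans (by
    have := size_le_of_lt_two_pow (hi.trans hMsz)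
    rw [pow_two]
    omega)
  have hs : sz ((x, (un p, (us, (K, (m, i))))) : Qy) ≤ p3.eval B' := by
    rw [sz_pair, sz_pair, sz_pair, sz_pair, sz_pair, hp3]
    simp only [Polynomial.eval_add, Polynomial.eval_mul, Polynomial.eval_C, Polynomial.eval_X,
      Polynomial.eval_pow, Polynomial.eval_one, Polynomial.eval_ofNat]
    omega
  have h3 := (hp1 _).trans (eval_mono p1 hs)
  have h4 := length_lt_sz (R (x, (un p, (us, (K, (m, i))))))
  have h5 := he1 B' (by omega)
  rw [Polynomial.eval_comp] at h5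
  have h6 : B' ^ e1 ≤ B' ^ e := Nat.pow_le_pow_right (by omega) (by omega)
  omega

end Pool.Agent.TH762.RX
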