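import Pool.Agent.TH762.RX.CP

/-!
# The label questions
-/

set_option autoImplicit false

namespace Pool.Agent.TH762.RX

open Pool.Agent.NPC Pool.Agent.NPC.Cnt

/-- The questions: the input, the prime in unary, the nodes, the candidate vectors, the number of
questions, the position. -/
abbrev Qy : Type := List Bool × (List Bool × (List (List Bool) × (List (List ℕ) × (ℕ × ℕ))))

/-- indicator that the vector `c` is the vector of the residues of the numbers of certificates -/
def indi (V : List Bool → List Bool) (pp : Polynomial ℕ) (b : ℕ) (x : List Bool) (p : ℕ)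
    (us : List (List Bool)) (c : List ℕ) : ℕ :=
  ((List.range us.length).map (fun j => gadget p (p ^ b)
    (cntP V pp (x, us.getD j []) + (p - c.getD j 0)))).prod

/-- The label question. -/
def lq (V : List Bool → List Bool) (pp : Polynomial ℕ) (t : List Bool → ℕ) (b : ℕ) (q : Qy) : ℕ :=
  ∑ l ∈ Finset.range q.2.2.2.1.length, t (bits (q.2.1, (q.2.2.2.2.1, (l, q.2.2.2.2.2)))) *
    indi V pp b q.1 q.2.1.length q.2.2.1 (q.2.2.2.1.getD l [])

theorem lq_countP {V : List Bool → List Bool} (hV : PolyTime V) (pp : Polynomial ℕ)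
    {t : List Bool → ℕ} (ht : NPC.Poly t) (b : ℕ) : CountP (lq V pp t b) := by
  unfold lq indi
  have a1 : NPC.Poly (fun z : Qy × ℕ => z.1) := NPC.Poly.fst NPC.Poly.id
  have al : NPC.Poly (fun z : Qy × ℕ => z.2) := NPC.Poly.snd NPC.Poly.id
  have ax := NPC.Poly.fst a1
  have a2 := NPC.Poly.snd a1
  have ap := NPC.Poly.fst a2
  have a3 := NPC.Poly.snd a2
  have aus := NPC.Poly.fst a3
  have a4 := NPC.Poly.snd a3
  have aK := NPC.Poly.fst a4
  have a5 := NPC.Poly.snd a4
  have am := NPC.Poly.fst a5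
  have ai := NPC.Poly.snd a5
  refine sumRange (f := fun z : Qy × ℕ => t (bits (z.1.2.1, (z.1.2.2.2.2.1, (z.2, z.1.2.2.2.2.2)))) *
    ((List.range z.1.2.2.1.length).map (fun j => gadget z.1.2.1.length (z.1.2.1.length ^ b)
    (cntP V pp (z.1.1, z.1.2.2.1.getD j []) + (z.1.2.1.length -
      (z.1.2.2.2.1.getD z.2 []).getD j 0)))).prod) ?_ ?_
  · refine CountP.mul (CountP.ofPoly ?_) ?_
    · exact ht.comp (poly_bits.comp (NPC.Poly.pair ap (NPC.Poly.pair am (NPC.Poly.pair al ai))))
    · refine prodRange (f := fun y : (Qy × ℕ) × ℕ => gadget y.1.1.2.1.length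
        (y.1.1.2.1.length ^ b) (cntP V pp (y.1.1.1, y.1.1.2.2.1.getD y.2 []) +
        (y.1.1.2.1.length - (y.1.1.2.2.2.1.getD y.1.2 []).getD y.2 0))) ?_ (UPoly.length aus)
      have b1 : NPC.Poly (fun y : (Qy × ℕ) × ℕ => y.1) := NPC.Poly.fst NPC.Poly.id
      have bj : NPC.Poly (fun y : (Qy × ℕ) × ℕ => y.2) := NPC.Poly.snd NPC.Poly.id
      have up : UPoly (fun y : (Qy × ℕ) × ℕ => y.1.1.2.1.length) := UPoly.length (ap.comp b1)
      refine countP_gadget up (Pool.Agent.W901.FH.pow_upolyc up b) ?_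
      refine CountP.add ((cntP_countP hV pp).comp (NPC.Poly.pair (ax.comp b1)
        (NPC.Poly.getD (aus.comp b1) bj (NPC.Poly.const [])))) (CountP.ofPoly ?_)
      exact NPC.Poly.sub up.toPoly (NPC.Poly.getD (NPC.Poly.getD (aK.comp b1) (al.comp b1)
        (NPC.Poly.const [])) bj (NPC.Poly.const 0))
  · exact UPoly.length (NPC.Poly.fst (NPC.Poly.snd (NPC.Poly.snd (NPC.Poly.snd NPC.Poly.id))))

/-- the vector of the residues -/
def tv (V : List Bool → List Bool) (pp : Polynomial ℕ) (x : List Bool) (p : ℕ)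
    (us : List (List Bool)) : List ℕ :=
  us.map (fun u => cntP V pp (x, u) % p)

theorem dvd_add_sub_iff {p c z : ℕ} (hc : c < p) : p ∣ z + (p - c) ↔ z % p = c := by
  have hp : 0 < p := by omega
  have h1 : z + (p - c) ≡ 0 [MOD p] ↔ z ≡ c [MOD p] := by
    have h2 : z + (p - c) + c ≡ z [MOD p] := by
      have : z + (p - c) + c = z + p := by omega
      rw [this]
      simp [Nat.ModEq]
    constructor
    · intro h
      have := h.add_right c
      rw [Nat.zero_add] at this
      exact h2.symm.trans this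
    · intro h
      have h3 : z + (p - c) + c ≡ 0 + c [MOD p] := by
        rw [Nat.zero_add]
        exact h2.trans h
      exact Nat.ModEq.add_right_cancel' c h3
  rw [← Nat.modEq_zero_iff_dvd, h1]
  unfold Nat.ModEq
  rw [Nat.mod_eq_of_lt hc]

theorem modEq_list_prod_one {M : ℕ} : ∀ (l : List ℕ) (g : ℕ → ℕ), (∀ j ∈ l, g j ≡ 1 [MOD M]) →
    (l.map g).prod ≡ 1 [MOD M]
  | [], g, _ => by simpa using Nat.ModEq.refl 1
  | a :: l, g, h => by
    rw [List.map_cons, List.prod_cons]
    have h1 := h a List.mem_cons_self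
    have h2 := modEq_list_prod_one l g (fun j hj => h j (List.mem_cons_of_mem _ hj))
    simpa using h1.mul h2

theorem modEq_list_prod_zero {M : ℕ} (l : List ℕ) (g : ℕ → ℕ) (j : ℕ) (hj : j ∈ l)
    (h : g j ≡ 0 [MOD M]) : (l.map g).prod ≡ 0 [MOD M] := by
  rw [Nat.modEq_zero_iff_dvd] at h ⊢
  exact h.trans (List.dvd_prod (List.mem_map_of_mem hj))

theorem indi_tv {V : List Bool → List Bool} {pp : Polynomial ℕ} {b : ℕ} {x : List Bool} {p : ℕ}
    (hp : p.Prime) {us : List (List Bool)} :
    indi V pp b x p us (tv V pp x p us) ≡ 1 [MOD p ^ (p ^ b)] := by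
  unfold indi
  refine modEq_list_prod_one _ _ fun j hj => gadget_of_dvd hp ?_
  rw [List.mem_range] at hj
  unfold tv
  rw [List.getD_eq_getElem _ _ hj, List.getD_eq_getElem _ _ (by simpa using hj), List.getElem_map,
    dvd_add_sub_iff (Nat.mod_lt _ hp.pos)]

theorem indi_ne {V : List Bool → List Bool} {pp : Polynomial ℕ} {b : ℕ} {x : List Bool} {p : ℕ}
    (hp : p.Prime) {us : List (List Bool)} {c : List ℕ} (hc : c.length = us.length)
    (hcp : ∀ a ∈ c, a < p) (hne : c ≠ tv V pp x p us) :
    indi V pp b x p us c ≡ 0 [MOD p ^ (p ^ b)] := by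
  unfold indi
  obtain ⟨j, hj, hjne⟩ : ∃ j, j < us.length ∧ c.getD j 0 ≠ cntP V pp (x, us.getD j []) % p := by
    by_contra hcon
    push Not at hcon
    refine hne (List.ext_getElem (by simp [tv, hc]) fun j h1 h2 => ?_)
    have h3 := hcon j (hc ▸ h1)
    rw [List.getD_eq_getElem _ _ h1, List.getD_eq_getElem _ _ (hc ▸ h1)] at h3
    rw [h3]
    simp [tv]
  refine modEq_list_prod_zero _ _ j (List.mem_range.2 hj) (gadget_of_not_dvd hp ?_)
  have h4 : c.getD j 0 < p := by
    rw [List.getD_eq_getElem _ _ (hc ▸ hj)]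
    exact hcp _ (List.getElem_mem _)
  rw [dvd_add_sub_iff h4]
  exact fun h => hjne h.symm

/-- The value of the label question modulo `p ^ (p ^ b)`. -/
theorem lq_mod {V : List Bool → List Bool} {pp : Polynomial ℕ} {t : List Bool → ℕ} {b : ℕ}
    {x pu : List Bool} (hp : pu.length.Prime) {us : List (List Bool)} {K : List (List ℕ)}
    (hK : K.Nodup) (hK1 : ∀ c ∈ K, c.length = us.length) (hK2 : ∀ c ∈ K, ∀ a ∈ c, a < pu.length)
    {l : ℕ} (hl : l < K.length) (hlt : K[l] = tv V pp x pu.length us) (m i : ℕ) :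
    lq V pp t b (x, (pu, (us, (K, (m, i))))) ≡ t (bits (pu, (m, (l, i))))
      [MOD pu.length ^ (pu.length ^ b)] := by
  unfold lq
  simp only
  have h1 : ∀ l' ∈ Finset.range K.length, t (bits (pu, (m, (l', i)))) *
      indi V pp b x pu.length us (K.getD l' []) ≡
      (if l' = l then t (bits (pu, (m, (l, i)))) else 0) [MOD pu.length ^ (pu.length ^ b)] := by
    intro l' hl'
    rw [Finset.mem_range] at hl'
    rw [List.getD_eq_getElem _ _ hl']
    by_cases h : l' = l
    · subst h
      rw [if_pos rfl, hlt]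
      simpa using (indi_tv (V := V) (pp := pp) (b := b) (x := x) hp (us := us)).mul_left
        (t (bits (pu, (m, (l', i)))))
    · rw [if_neg h]
      have h2 : K[l'] ≠ tv V pp x pu.length us := by
        rw [← hlt]
        intro h3
        exact h ((hK.getElem_inj_iff).1 h3)
      simpa using (indi_ne (b := b) hp (hK1 _ (List.getElem_mem hl')) (hK2 _ (List.getElem_mem hl'))
        h2).mul_left (t (bits (pu, (m, (l', i)))))
  have h2 : ∀ s : Finset ℕ, (∀ l' ∈ s, l' ∈ Finset.range K.length) →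
      ∑ l' ∈ s, t (bits (pu, (m, (l', i)))) * indi V pp b x pu.length us (K.getD l' []) ≡
      ∑ l' ∈ s, (if l' = l then t (bits (pu, (m, (l, i)))) else 0)
        [MOD pu.length ^ (pu.length ^ b)] := by
    intro s
    induction s using Finset.induction_on with
    | empty => intro _; exact Nat.ModEq.refl _
    | insert a s ha ih =>
      intro hs
      rw [Finset.sum_insert ha, Finset.sum_insert ha]
      exact (h1 a (hs a (Finset.mem_insert_self _ _))).add
        (ih fun l' hl' => hs l' (Finset.mem_insert_of_mem hl'))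
  refine (h2 _ fun _ h => h).trans ?_
  rw [Finset.sum_ite_eq' (Finset.range K.length) l, if_pos (Finset.mem_range.2 hl)]

end Pool.Agent.TH762.RX
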