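import Pool.Agent.TH762.RX.Eng
import Pool.Agent.TH762.RX.Crt
import Pool.Agent.TH762.RX.SatC

/-!
# The exclusion of one digit, or of one vector of residues
-/

set_option autoImplicit false

namespace Pool.Agent.TH762.RX

open Pool.Agent.NPC Pool.Agent.NPC.Cnt
open Pool.Agent.W901.FH (pow_upolyc)

/-- **From the exclusion of a vector to `#P ⊆ FP`.** -/
theorem fp_of_vectorExcluded {f t : List Bool → ℕ} (hf : ModHard f)
    (ht : PolyTime (fun z => bits (t z))) (hex : VectorExcluded f t) :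
    ∀ g : List Bool → ℕ, SharpP g → FP g := by
  rintro g ⟨V, p, hV, hg⟩
  obtain ⟨D, c0, hD, hDs⟩ := residues hf ht hex hV p
  set T : List Bool → ℕ := fun x => (p.eval x.length + 1) + c0 + 6 with hT
  have hTU : UPoly T := ((((UPoly.length NPC.Poly.id).eval p).add (UPoly.const 1)).add
    (UPoly.const c0)).add (UPoly.const 6)
  have h1 : NPC.Poly (fun x => (crt (fun q => D (x, un q)) (prl c0 (T x)) (0, 1)).1) := by
    refine crt_poly c0 hTU (D := fun x q => D (x, un q)) ?_
    have e1 : NPC.Poly (fun q : List Bool × ℕ => q.1) := NPC.Poly.fst NPC.Poly.id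
    have uT : UPoly (fun q : List Bool × ℕ => T q.1 ^ 2) := (pow_upolyc hTU 2).comp e1
    exact hD.comp (NPC.Poly.pair e1 (un_poly (UPoly.of_le (NPC.Poly.min
      (NPC.Poly.snd NPC.Poly.id) uT.toPoly) uT (fun _ => min_le_right _ _))))
  have h2 : NPC.Poly g := h1.congr fun x => by
    rw [hg x, ← cntP_root V p x]
    exact crt_eq (cntP_lt V p x []) (fun q hq hcq => hDs x q hq hcq)
  exact PIso.poly_iff.1 (NPC.Poly.natBits h2)

/-! ### Digits -/

/-- all digits equal to `l`: `l * (1 + p + ... + p ^ (K - 1))` -/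
def rep (p l K : ℕ) : ℕ := l * ((List.range K).map (fun j => p ^ (min j K))).sum

theorem rep_eq (p l K : ℕ) : rep p l K = l * ∑ j ∈ Finset.range K, p ^ j := by
  unfold rep
  congr 1
  rw [Finset.sum_range, ← List.sum_ofFn]
  congr 1
  refine List.ext_getElem (by simp) fun i h1 h2 => ?_
  have h3 : i < K := by simpa using h1
  simp [min_eq_left h3.le]

theorem rep_digit {p l K j : ℕ} (hp : 2 ≤ p) (hl : l < p) (hj : j < K) :
    rep p l K / p ^ j % p = l := by
  rw [rep_eq]
  obtain ⟨d, rfl⟩ : ∃ d, K = j + (1 + d) := ⟨K - j - 1, by omega⟩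
  rw [Finset.sum_range_add]
  have h1 : ∑ x ∈ Finset.range (1 + d), p ^ (j + x) =
      p ^ j * (1 + p * ∑ x ∈ Finset.range d, p ^ x) := by
    rw [Finset.sum_range_add, Finset.sum_range_one, Nat.mul_add]
    congr 1
    · simp
    · rw [Finset.mul_sum, Finset.mul_sum]
      refine Finset.sum_congr rfl fun x _ => ?_
      rw [pow_add, pow_add]
      ring
  have h2 : l * ∑ x ∈ Finset.range j, p ^ x < p ^ j := by
    have h3 := Nat.geomSum_eq hp j
    have h4 : (p - 1) * ∑ x ∈ Finset.range j, p ^ x < p ^ j := by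
      rw [h3, Nat.mul_comm]
      have : 0 < p ^ j := by positivity
      have h5 : (p ^ j - 1) / (p - 1) * (p - 1) ≤ p ^ j - 1 := Nat.div_mul_le_self _ _
      omega
    exact lt_of_le_of_lt (Nat.mul_le_mul_right _ (by omega)) h4
  rw [h1, Nat.mul_add]
  have h3 : l * (p ^ j * (1 + p * ∑ x ∈ Finset.range d, p ^ x)) =
      p ^ j * (l * (1 + p * ∑ x ∈ Finset.range d, p ^ x)) := by ring
  rw [h3, Nat.add_mul_div_left _ _ (by positivity), Nat.div_eq_of_lt h2, Nat.zero_add, Nat.mul_add,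
    Nat.mul_one, show l * (p * ∑ x ∈ Finset.range d, p ^ x) =
      p * (l * ∑ x ∈ Finset.range d, p ^ x) by ring, Nat.add_mul_mod_self_left,
    Nat.mod_eq_of_lt hl]

theorem digit_of_modEq {p K j N M : ℕ} (hj : j < K) (h : N ≡ M [MOD p ^ K]) :
    N / p ^ j % p = M / p ^ j % p := by
  have h1 : N ≡ M [MOD p ^ (j + 1)] := h.of_dvd (pow_dvd_pow p (by omega))
  rw [pow_succ] at h1
  rw [← Nat.mod_mul_right_div_self, ← Nat.mod_mul_right_div_self, h1]

/-- the family of the numbers whose digits are all the same -/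
def tDig (b : ℕ) (z : List Bool) : ℕ :=
  rep ((unbits (List Bool × (ℕ × (ℕ × ℕ))) z).getD ([], (0, (0, 0)))).1.length
    ((unbits (List Bool × (ℕ × (ℕ × ℕ))) z).getD ([], (0, (0, 0)))).2.2.1
    (((unbits (List Bool × (ℕ × (ℕ × ℕ))) z).getD ([], (0, (0, 0)))).1.length ^ b)

theorem tDig_poly (b : ℕ) : NPC.Poly (tDig b) := by
  unfold tDig rep
  have e0 : NPC.Poly (fun z : List Bool =>
      (unbits (List Bool × (ℕ × (ℕ × ℕ))) z).getD ([], (0, (0, 0)))) :=
    NPC.Poly.optGetD (g := fun _ => ([], (0, (0, 0)))) poly_unbits (NPC.Poly.const _)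
  have u1 : UPoly (fun z : List Bool =>
      ((unbits (List Bool × (ℕ × (ℕ × ℕ))) z).getD ([], (0, (0, 0)))).1.length) :=
    UPoly.length (NPC.Poly.fst e0)
  have u2 := pow_upolyc u1 b
  refine NPC.Poly.mul (NPC.Poly.fst (NPC.Poly.snd (NPC.Poly.snd e0))) (NPC.Poly.sum
    (NPC.Poly.map (F := fun z j => ((unbits (List Bool × (ℕ × (ℕ × ℕ))) z).getD
      ([], (0, (0, 0)))).1.length ^ (min j (((unbits (List Bool × (ℕ × (ℕ × ℕ))) z).getD
      ([], (0, (0, 0)))).1.length ^ b))) u2.range ?_))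
  have e1 : NPC.Poly (fun q : List Bool × ℕ => q.1) := NPC.Poly.fst NPC.Poly.id
  exact Uc.poly_upow (UPoly.of_le (NPC.Poly.min (NPC.Poly.snd NPC.Poly.id)
    (u2.comp e1).toPoly) (u2.comp e1) (fun _ => min_le_right _ _)) (u1.comp e1).toPoly

theorem tDig_bits (b : ℕ) (p m l i : ℕ) :
    tDig b (bits (un p, (m, (l, i)))) = rep p l (p ^ b) := by
  unfold tDig
  simp only [unbits_bits, Option.getD_some, un_length]

/-- the first string of the list -/
def dgX (X : List Bool → ℕ × ℕ) (z : List Bool) : ℕ :=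
  (X (bits ((((unbits (List (List Bool) × (ℕ × (ℕ × List Bool))) z).getD
    ([], (0, (0, [])))).1.head?.getD []),
    ((unbits (List (List Bool) × (ℕ × (ℕ × List Bool))) z).getD ([], (0, (0, [])))).2))).2

theorem vectorExcluded_of_digit {f : List Bool → ℕ} (h : DigitExcluded f) :
    ∃ t : List Bool → ℕ, PolyTime (fun z => bits (t z)) ∧ VectorExcluded f t := by
  obtain ⟨X, b, hX, h⟩ := h
  have hXp := poly_of_polyTime hX
  have e0 : NPC.Poly (fun z : List Bool =>
      (unbits (List (List Bool) × (ℕ × (ℕ × List Bool))) z).getD ([], (0, (0, [])))) :=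
    NPC.Poly.optGetD (g := fun _ => ([], (0, (0, [])))) poly_unbits (NPC.Poly.const _)
  have hdg : NPC.Poly (dgX X) := by
    unfold dgX
    exact NPC.Poly.snd (hXp.comp (poly_bits.comp (NPC.Poly.pair
      (NPC.Poly.head?_getD (NPC.Poly.fst e0) []) (NPC.Poly.snd e0))))
  refine ⟨tDig (b + 1), polyTime_bits (tDig_poly (b + 1)), dgX X, b + 1, polyTime_bits hdg, ?_⟩
  intro n p hp hbp hpn
  have hpb : p ^ b ≤ p ^ (b + 1) := Nat.pow_le_pow_right hp.pos (by omega)
  obtain ⟨a, ha, h⟩ := h n p hp (by omega) (hpb.trans hpn)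
  have hn1 : 1 ≤ n := le_trans (Nat.one_le_pow _ _ hp.pos) hpn
  have hnb : n ^ b ≤ n ^ (b + 1) := Nat.pow_le_pow_right hn1 (by omega)
  refine ⟨1, a, by omega, by omega, fun qs hqs hlen => ?_⟩
  obtain ⟨y, rfl⟩ := List.length_eq_one_iff.1 hqs
  obtain ⟨h1, h2, h3⟩ := h y (hlen y List.mem_cons_self)
  have hd : dgX X (bits ([y], (a, (p, un n)))) = (X (bits (y, (a, (p, un n))))).2 := by
    unfold dgX
    simp only [unbits_bits, Option.getD_some, List.head?_cons]
  rw [hd]
  set d := X (bits (y, (a, (p, un n)))) with hd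
  refine ⟨?_, 0, by omega, ?_⟩
  · have : p ^ 1 ≤ p ^ (b + 1) := Nat.pow_le_pow_right hp.pos (by omega)
    rw [pow_one] at this
    omega
  · rw [tDig_bits, List.getD_cons_zero]
    intro h4
    apply h3
    rw [digit_of_modEq (lt_of_lt_of_le h1 hpb) h4, rep_digit hp.two_le h2 (lt_of_lt_of_le h1 hpb)]

/-! ### Satisfying assignments -/

theorem sharpSat_modHard : ModHard sharpSat := by
  rintro g ⟨V, p, hV, hg⟩
  obtain ⟨s, hs, hsat⟩ := parsimonious hV p
  have hs' : NPC.Poly s := PC.comp hs Pool.Agent.NPC.Cnt.pc_raw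
  refine ⟨fun z => bits (s ((unbits (List Bool × ℕ) z).getD ([], 0)).1), 0, polyTime_bits
    (hs'.comp (NPC.Poly.fst (NPC.Poly.optGetD (g := fun _ => ([], 0)) poly_unbits
      (NPC.Poly.const _)))), fun x p k _ _ => ?_⟩
  simp only [unbits_bits, Option.getD_some]
  unfold sharpSat
  rw [strFn_bits, hsat x, hg x]

theorem sharpSat_sharpP : SharpP sharpSat := CountP.sharpP countP_satCount

/-- the next value of the lowest digit -/
def nxX (f : List Bool → ℕ) (z : List Bool) : ℕ × ℕ :=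
  (0, (f ((unbits (List Bool × (ℕ × (ℕ × List Bool))) z).getD ([], (0, (0, [])))).1 %
    ((unbits (List Bool × (ℕ × (ℕ × List Bool))) z).getD ([], (0, (0, [])))).2.2.1 + 1) %
    ((unbits (List Bool × (ℕ × (ℕ × List Bool))) z).getD ([], (0, (0, [])))).2.2.1)

theorem digitExcluded_of_fp {f : List Bool → ℕ} (h : FP f) : DigitExcluded f := by
  have hf : NPC.Poly f := NPC.Poly.of_natBits (PIso.poly_iff.2 h)
  have e0 : NPC.Poly (fun z : List Bool =>
      (unbits (List Bool × (ℕ × (ℕ × List Bool))) z).getD ([], (0, (0, [])))) :=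
    NPC.Poly.optGetD (g := fun _ => ([], (0, (0, [])))) poly_unbits (NPC.Poly.const _)
  have ep : NPC.Poly (fun z : List Bool =>
      ((unbits (List Bool × (ℕ × (ℕ × List Bool))) z).getD ([], (0, (0, [])))).2.2.1) :=
    NPC.Poly.fst (NPC.Poly.snd (NPC.Poly.snd e0))
  have hnx : NPC.Poly (nxX f) := by
    unfold nxX
    exact NPC.Poly.pair (NPC.Poly.const 0) (NPC.Poly.mod (NPC.Poly.add (NPC.Poly.mod
      (hf.comp (NPC.Poly.fst e0)) ep) (NPC.Poly.const 1)) ep)
  refine ⟨nxX f, 1, polyTime_bits hnx, fun n p hp _ _ => ⟨0, Nat.zero_le _, fun y _ => ?_⟩⟩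
  have hv : nxX f (bits (y, (0, (p, un n)))) = (0, (f y % p + 1) % p) := by
    unfold nxX
    simp only [unbits_bits, Option.getD_some]
  rw [hv]
  refine ⟨by have := hp.pos; simpa using this, Nat.mod_lt _ hp.pos, ?_⟩
  simp only
  rw [pow_zero, Nat.div_one]
  have h1 := Nat.mod_lt (f y) hp.pos
  have h2 := hp.two_le
  generalize f y % p = a at h1
  intro h3
  by_cases h4 : a + 1 < p
  · rw [Nat.mod_eq_of_lt h4] at h3
    omega
  · have h5 : a + 1 = p := by omega
    rw [h5, Nat.mod_self] at h3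
    omega

/-- **The exclusion theorem.** -/
theorem exclusion_law : List.TFAE
    [∀ g : List Bool → ℕ, SharpP g → FP g,
      DigitExcluded sharpSat,
      ∃ f : List Bool → ℕ, ModHard f ∧ DigitExcluded f,
      ∃ f t : List Bool → ℕ, ModHard f ∧ PolyTime (fun z => bits (t z)) ∧ VectorExcluded f t] := by
  tfae_have 1 → 2 := fun h => digitExcluded_of_fp (h _ sharpSat_sharpP)
  tfae_have 2 → 3 := fun h => ⟨sharpSat, sharpSat_modHard, h⟩
  tfae_have 3 → 4 := fun ⟨f, hf, h⟩ => by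
    obtain ⟨t, ht, h1⟩ := vectorExcluded_of_digit h
    exact ⟨f, t, hf, ht, h1⟩
  tfae_have 4 → 1 := fun ⟨f, t, hf, ht, h⟩ => fp_of_vectorExcluded hf ht h
  tfae_finish

end Pool.Agent.TH762.RX

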